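import Pool.Agent.H86.FM.Chr

/-!
# Frobenius eigenvalues of two-dimensional representations and characters

Let `K` be a number field (for the conjecture `K = ℚ`), `F` a finite extension of `ℚ_p` and
`V : G_K → GL_2(F)` a continuous representation which is strongly irreducible: absolutely
irreducible on every open subgroup. (By Burnside's theorem this means that the matrices `V(h)`,
`h ∈ H`, span `M_2(F)` for every open subgroup `H`. An absolutely irreducible `V` is strongly
irreducible if and only if it is not dihedral and its projective image is infinite.)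

Theorem.

(1) The finite places `v` of `K` such that for every Frobenius element `g` at `v` no nonzero power
`a ^ k` of an eigenvalue `a` of `V(g)` is contained in `ℚ_p`, have positive lower density.

(2) Let `ψ : G_K → F^×` be a continuous character. The finite places `v` such that for every Frobenius
element `g` at `v` each eigenvalue of `V(g)` is multiplicatively independent of `ψ(g)`, have positive
lower density if and only if `ψ` has infinite order.

(3) The finite places `v` such that for every Frobenius element `g` at `v` the two eigenvalues of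
`V(g)` are multiplicatively independent (that is, the Frobenius torus at `v` has rank two), have
positive lower density if and only if `det V` has infinite order.

The exponents may depend on `v` and are not bounded. Nothing is assumed on ramification, on the places
above `p`, on weights, or on algebraicity; `p = 2` is allowed. Since (1) can be applied to the twists
of `V`, it shows for instance: if `V` is continuous and for all `v` outside a set of lower density
zero some nonzero power of some eigenvalue of `V(Frob_v)` is a rational number, or a power of the norm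
of `v`, or the product of the values at `Frob_v` of finitely many characters `G_K → ℚ_p^×`, then `V`
is not strongly irreducible. For elliptic curves this is the fact that the supersingular places do not
have density one if there is no complex multiplication.

For the conjecture of Fontaine and Mazur: if an absolutely irreducible `V` satisfies the assumptions of
the conjecture and violates the conclusion of (1), or of (2) for some character of infinite order, then
`V` is dihedral or has finite projective image, and these cases of the conjecture are known (for finite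
projective image with `det V` odd). (This paragraph is not part of the formal proof.)

Proof. If `k log a = l log ψ(g)`, resp. `log a ∈ ℚ_p`, for an eigenvalue at every Frobenius element
outside a set of lower density zero, then by compactness of `ℤ_p` and the theorem of Chebotarev (from
the library) the same is true with `k`, `l ∈ ℤ_p` for all `g ∈ G_K` in an open subgroup `U`, and so for
all elements `(X, c)` of the Lie algebra `𝔤` of `(V, ψ)(U)`: some eigenvalue of `X` is in `ℚ_p c`, resp.
in `ℚ_p`. Let `c ≠ 0`. As `(X + t Z, c) ∈ 𝔤` for all `t ∈ ℚ_p` and all `Z` in the derived Lie algebra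
`𝔰` of the Lie algebra of `V(U)`, for `t → ∞` the eigenvalues of `Z` are in `ℚ_p c`, so that the
discriminant of `Z` is in `4 c ^ 2 (ℚ_p) ^ 2`, for all `Z ∈ 𝔰`. But `𝔰` contains `Z₁` and
`Z₂ = [Z₁, Z']` with nonzero discriminants, and the discriminant of `x Z₁ + y Z₂` is
`x ^ 2 disc Z₁ + y ^ 2 disc Z₂`, so all sums of two squares of `ℚ_p` would be squares.
-/

set_option autoImplicit false

namespace Pool.Agent.Results.MP_b583a4_nt.EigenvaluesAndCharacters

open NumberField IsDedekindDomain Filter Matrix

/-- the absolute Galois group of the field `K`, with the Krull topology -/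
abbrev AbsGal (K : Type) [Field K] : Type := Gal(AlgebraicClosure K/K)

/-- `g` is an (arithmetic) Frobenius element at a maximal ideal `Q` of the ring of all algebraic
integers which lies above the finite place `v` of `K`. -/
def IsFrobenius {K : Type} [Field K] [NumberField K] (v : HeightOneSpectrum (𝓞 K))
    (g : AbsGal K) : Prop :=
  ∃ Q : Ideal (𝓞 (AlgebraicClosure K)), Q.IsMaximal ∧
    Q.comap (algebraMap (𝓞 K) (𝓞 (AlgebraicClosure K))) = v.asIdeal ∧
    ∀ x : 𝓞 (AlgebraicClosure K), g • x - x ^ Ideal.absNorm v.asIdeal ∈ Q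

/-- The set `P` of finite places of `K` has positive lower density: for some `δ > 0` and all large
`x` it contains at least `δ π(x)` places of norm at most `x`. -/
def PositiveLowerDensity {K : Type} [Field K] [NumberField K]
    (P : Set (HeightOneSpectrum (𝓞 K))) : Prop :=
  ∃ δ : ℝ, 0 < δ ∧ ∀ᶠ x : ℕ in atTop,
    δ * Nat.primeCounting x ≤ ({v ∈ P | Ideal.absNorm v.asIdeal ≤ x}.ncard : ℝ)

section
variable {K F : Type} [Field K] [Field F]

/-- the matrix of `g` -/
noncomputable def mat (ρ : AbsGal K →* GL (Fin 2) F) (g : AbsGal K) : Matrix (Fin 2) (Fin 2) F :=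
  (ρ g : GL (Fin 2) F)

/-- `ρ` is absolutely irreducible on every open subgroup `H`: the matrices `ρ(h)`, `h ∈ H`, span the
space of all two by two matrices. -/
def StronglyIrreducible (ρ : AbsGal K →* GL (Fin 2) F) : Prop :=
  ∀ H : Subgroup (AbsGal K), IsOpen (H : Set (AbsGal K)) →
    Submodule.span F (mat ρ '' (H : Set (AbsGal K))) = ⊤

/-- `a`, `b` are the eigenvalues of the matrix `A`, with multiplicities. -/
def Eigenvalues (A : Matrix (Fin 2) (Fin 2) F) (a b : AlgebraicClosure F) : Prop :=
  A.charpoly.map (algebraMap F (AlgebraicClosure F)) =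
    (Polynomial.X - Polynomial.C a) * (Polynomial.X - Polynomial.C b)

end

section aux

variable {F : Type} [Field F]

theorem eigenvalues_iff {A : Matrix (Fin 2) (Fin 2) F} {a b : AlgebraicClosure F} :
    Eigenvalues A a b ↔ algebraMap F (AlgebraicClosure F) A.trace = a + b ∧
      algebraMap F (AlgebraicClosure F) A.det = a * b := by
  constructor
  · exact fun h => Pool.Agent.H86.FM.Dep.of_charpoly h
  · rintro ⟨h1, h2⟩
    unfold Eigenvalues
    rw [Matrix.charpoly_fin_two]
    simp only [Polynomial.map_add, Polynomial.map_sub, Polynomial.map_mul, Polynomial.map_pow,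
      Polynomial.map_X, Polynomial.map_C, h1, h2, Polynomial.C_add, Polynomial.C_mul]
    ring

theorem exists_eigenvalues (A : Matrix (Fin 2) (Fin 2) F) :
    ∃ a b : AlgebraicClosure F, Eigenvalues A a b := by
  obtain ⟨a, ha⟩ := IsAlgClosed.exists_root (k := AlgebraicClosure F)
    (A.charpoly.map (algebraMap F (AlgebraicClosure F))) (by
      rw [Polynomial.degree_map, Matrix.charpoly_degree_eq_dim, Fintype.card_fin]
      norm_num)
  refine ⟨a, algebraMap F (AlgebraicClosure F) A.trace - a, eigenvalues_iff.2 ⟨by ring, ?_⟩⟩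
  rw [Matrix.charpoly_fin_two] at ha
  simp only [Polynomial.map_add, Polynomial.map_sub, Polynomial.map_mul, Polynomial.map_pow,
    Polynomial.map_X, Polynomial.map_C, Polynomial.IsRoot.def, Polynomial.eval_add,
    Polynomial.eval_sub, Polynomial.eval_pow, Polynomial.eval_X, Polynomial.eval_mul,
    Polynomial.eval_C] at ha
  linear_combination ha

theorem eigenvalues_ne {M : GL (Fin 2) F} {a b : AlgebraicClosure F}
    (h : Eigenvalues (M : Matrix (Fin 2) (Fin 2) F) a b) : a ≠ 0 ∧ b ≠ 0 := by
  obtain ⟨-, h2⟩ := eigenvalues_iff.1 h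
  have h3 : (M : Matrix (Fin 2) (Fin 2) F).det ≠ 0 := by
    have := (Matrix.isUnit_iff_isUnit_det _).1 M.isUnit
    exact this.ne_zero
  have h4 : a * b ≠ 0 := by
    rw [← h2]
    exact (map_ne_zero_iff _ (algebraMap F (AlgebraicClosure F)).injective).2 h3
  exact ⟨left_ne_zero_of_mul h4, right_ne_zero_of_mul h4⟩

theorem int_form {Ω : Type*} [Field Ω] {a b : Ω} {k l : ℤ}
    (h : a ^ k * b ^ l = 1) (hkl : ¬ (k = 0 ∧ l = 0)) :
    ∃ k' l' : ℕ, (k' ≠ 0 ∨ l' ≠ 0) ∧ (a ^ k' = b ^ l' ∨ a ^ k' = (b⁻¹) ^ l') := by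
  refine ⟨k.natAbs, l.natAbs, by omega, ?_⟩
  rcases Int.natAbs_eq k with hk | hk <;> rcases Int.natAbs_eq l with hl | hl
  · right
    rw [hk, hl, zpow_natCast, zpow_natCast] at h
    rw [_root_.inv_pow]
    exact eq_inv_of_mul_eq_one_left h
  · left
    rw [hk, hl, zpow_natCast, _root_.zpow_neg, zpow_natCast] at h
    exact eq_of_mul_inv_eq_one h
  · left
    rw [hk, hl, zpow_natCast, _root_.zpow_neg, zpow_natCast] at h
    exact (eq_of_inv_mul_eq_one h)
  · right
    rw [hk, hl, _root_.zpow_neg, _root_.zpow_neg, zpow_natCast, zpow_natCast, ← _root_.mul_inv] at h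
    rw [_root_.inv_pow]
    exact eq_inv_of_mul_eq_one_left (inv_eq_one.1 h)

theorem eigenvalues_pow {A : Matrix (Fin 2) (Fin 2) F} {a₁ a₂ : AlgebraicClosure F}
    (h : Eigenvalues A a₁ a₂) (n : ℕ) : Eigenvalues (A ^ n) (a₁ ^ n) (a₂ ^ n) := by
  obtain ⟨h1, h2⟩ := eigenvalues_iff.1 h
  have t : ∀ M : Matrix (Fin 2) (Fin 2) F, algebraMap F (AlgebraicClosure F) M.trace =
      (M.map (algebraMap F (AlgebraicClosure F))).trace := by
    intro M
    rw [Matrix.trace_fin_two, Matrix.trace_fin_two]
    simp
  have e : ∀ M : Matrix (Fin 2) (Fin 2) F, algebraMap F (AlgebraicClosure F) M.det =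
      (M.map (algebraMap F (AlgebraicClosure F))).det := by
    intro M
    rw [Matrix.det_fin_two, Matrix.det_fin_two]
    simp
  have pw : (A ^ n).map (algebraMap F (AlgebraicClosure F)) =
      (A.map (algebraMap F (AlgebraicClosure F))) ^ n :=
    map_pow (algebraMap F (AlgebraicClosure F)).mapMatrix A n
  rw [eigenvalues_iff]
  constructor
  · rw [t, pw]
    rw [t] at h1
    rw [e] at h2
    exact (Pool.Agent.H86.FM.Dep.trace_pow h1 h2 n).1
  · rw [Matrix.det_pow, map_pow, h2, mul_pow]

theorem eigenvalues_swap {A : Matrix (Fin 2) (Fin 2) F} {a₁ a₂ : AlgebraicClosure F}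
    (h : Eigenvalues A a₁ a₂) : Eigenvalues A a₂ a₁ := h.trans (mul_comm _ _)

theorem Rs_zero {A C : Matrix (Fin 2) (Fin 2) F} {a₁ a₂ b₁ b₂ : AlgebraicClosure F}
    (hA : Eigenvalues A a₁ a₂) (hC : Eigenvalues C b₁ b₂) (h : a₁ = b₁) :
    Pool.Agent.H86.FM.Rs.Rs A C = 0 := by
  obtain ⟨h1, h2⟩ := eigenvalues_iff.1 hA
  obtain ⟨h3, h4⟩ := eigenvalues_iff.1 hC
  apply (algebraMap F (AlgebraicClosure F)).injective
  unfold Pool.Agent.H86.FM.Rs.Rs
  simp only [map_add, map_mul, map_pow, map_sub, h1, h2, h3, h4, h, map_zero]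
  ring

theorem Rs_pow {A C : Matrix (Fin 2) (Fin 2) F} {a₁ a₂ b₁ b₂ : AlgebraicClosure F}
    (hA : Eigenvalues A a₁ a₂) (hC : Eigenvalues C b₁ b₂) {k l : ℕ} (h : a₁ ^ k = b₁ ^ l) (j : ℕ) :
    Pool.Agent.H86.FM.Rs.Rs (A ^ (k * j)) (C ^ (l * j)) = 0 := by
  refine Rs_zero (eigenvalues_pow hA (k * j)) (eigenvalues_pow hC (l * j)) ?_
  rw [pow_mul, pow_mul, h]

/-- there is a Frobenius element at each finite place -/
theorem exists_frobenius {K : Type} [Field K] [NumberField K] (v : HeightOneSpectrum (𝓞 K)) :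
    ∃ g, IsFrobenius v g := by
  have hint : Algebra.IsIntegral (𝓞 K) (𝓞 (AlgebraicClosure K)) := by
    constructor
    intro x
    have h := RingOfIntegers.isIntegral x
    exact h.tower_top
  have hv : v.asIdeal.IsMaximal := v.isMaximal
  obtain ⟨Q, hQ, hQ'⟩ := Ideal.exists_ideal_over_maximal_of_isIntegral
    (R := 𝓞 K) (S := 𝓞 (AlgebraicClosure K)) v.asIdeal (by
      rw [(RingHom.injective_iff_ker_eq_bot _).mp
        (FaithfulSMul.algebraMap_injective (𝓞 K) (𝓞 (AlgebraicClosure K)))]
      exact bot_le)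
  obtain ⟨σ, hσ⟩ := Pool.Agent.W352.ChAbs.exists_frob v Q hQ'
  exact ⟨σ, Q, hQ, hQ', hσ⟩

theorem exists_pow {K : Type} [Field K] [NumberField K] (H : Subgroup (AbsGal K))
    (hH : IsOpen (H : Set (AbsGal K))) (g : AbsGal K) : ∃ m : ℕ, 0 < m ∧ g ^ m ∈ H := by
  have hfin : Finite (AbsGal K ⧸ H) := Subgroup.quotient_finite_of_isOpen _ hH
  have h1 : H.index ≠ 0 := (Subgroup.finiteIndex_of_finite_quotient (H := H)).index_ne_zero
  obtain ⟨n, hn, -, hg⟩ := Subgroup.exists_pow_mem_of_index_ne_zero h1 g
  exact ⟨n, hn, hg⟩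


theorem inv_mat {K : Type} [Field K] (V : AbsGal K →* GL (Fin 2) F) (g : AbsGal K) :
    mat V g * mat V g⁻¹ = 1 := by
  unfold mat
  rw [← Units.val_mul, ← map_mul, mul_inv_cancel, map_one, Units.val_one]

theorem eigenvalues_scalar (c : F) :
    Eigenvalues (c • (1 : Matrix (Fin 2) (Fin 2) F)) (algebraMap F (AlgebraicClosure F) c)
      (algebraMap F (AlgebraicClosure F) c) := by
  rw [eigenvalues_iff, Matrix.trace_smul, Matrix.trace_one, Matrix.det_smul, Matrix.det_one,
    Fintype.card_fin]
  constructor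
  · rw [smul_eq_mul, Nat.cast_ofNat, map_mul, map_ofNat]
    ring
  · rw [mul_one, map_pow]
    ring

theorem pos_of {K : Type} [Field K] [NumberField K] {S : Set (HeightOneSpectrum (𝓞 K))}
    (h : ¬ ∀ ε : ℝ, 0 < ε → ∃ᶠ x : ℕ in atTop, Pool.Agent.W401.Cheb.dens (fun v => v ∉ Sᶜ) x ≤ ε) :
    PositiveLowerDensity S := by
  by_contra hcon
  apply h
  intro ε hε
  have h1 : ¬ ∀ᶠ x : ℕ in atTop, ε * Nat.primeCounting x ≤
      (({v ∈ S | Ideal.absNorm v.asIdeal ≤ x}).ncard : ℝ) := fun h => hcon ⟨ε, hε, h⟩
  have h2 := (Filter.not_eventually.1 h1)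
  refine (h2.and_eventually
    (Nat.tendsto_primeCounting.eventually_gt_atTop 0)).mono ?_
  rintro x ⟨h3, h4⟩
  have h5 : (0 : ℝ) < (Nat.primeCounting x : ℝ) := by exact_mod_cast h4
  unfold Pool.Agent.W401.Cheb.dens
  rw [div_le_iff₀ h5]
  push Not at h3
  refine le_trans (le_of_eq ?_) h3.le
  have h6 : {v : HeightOneSpectrum (𝓞 K) | Ideal.absNorm v.asIdeal ≤ x ∧ v ∉ Sᶜ} =
      {v ∈ S | Ideal.absNorm v.asIdeal ≤ x} := by
    ext v
    simp only [Set.mem_setOf_eq, Set.mem_compl_iff, not_not]
    exact and_comm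
  rw [← h6]
  rfl

theorem nonempty_of_pos {K : Type} [Field K] [NumberField K] {S : Set (HeightOneSpectrum (𝓞 K))}
    (h : PositiveLowerDensity S) : ∃ v, v ∈ S := by
  obtain ⟨δ, hδ, h⟩ := h
  by_contra hcon
  push Not at hcon
  obtain ⟨x, h1, h2⟩ := (h.and (Nat.tendsto_primeCounting.eventually_gt_atTop 0)).exists
  have h3 : ({v ∈ S | Ideal.absNorm v.asIdeal ≤ x}) = ∅ := by
    rw [Set.eq_empty_iff_forall_notMem]
    rintro v ⟨hv, -⟩
    exact hcon v hv
  rw [h3, Set.ncard_empty, Nat.cast_zero] at h1
  have h4 : (0 : ℝ) < Nat.primeCounting x := by exact_mod_cast h2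
  have h5 := mul_pos hδ h4
  linarith

end aux

section main

variable {K : Type} [Field K] [NumberField K] (p : ℕ) [Fact p.Prime] {F : Type}
  [NormedField F] [NormedAlgebra ℚ_[p] F] [FiniteDimensional ℚ_[p] F]

theorem powers (V : AbsGal K →* GL (Fin 2) F) (hV : Continuous V) (hirr : StronglyIrreducible V) :
    PositiveLowerDensity {v : HeightOneSpectrum (𝓞 K) | ∀ g, IsFrobenius v g →
      ∀ a b : AlgebraicClosure F, Eigenvalues (mat V g) a b → ∀ k : ℤ, k ≠ 0 → ∀ q : ℚ_[p],
        a ^ k ≠ algebraMap F (AlgebraicClosure F) (algebraMap ℚ_[p] F q)} := by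
  apply pos_of
  intro hP
  refine Pool.Agent.H86.FM.Chr.main1 p ((Units.coeHom _).comp V) (Units.continuous_val.comp hV)
    (fun H hH => hirr H hH) _ hP ?_
  intro v hv
  simp only [Set.mem_compl_iff, Set.mem_setOf_eq] at hv
  push Not at hv
  obtain ⟨g, hg, a, b, hab, k, hk, q, hq⟩ := hv
  obtain ⟨ha, hb⟩ := eigenvalues_ne (M := V g) hab
  have key : ∃ k' : ℕ, k' ≠ 0 ∧ ∃ q' : ℚ_[p],
      a ^ k' = algebraMap F (AlgebraicClosure F) (algebraMap ℚ_[p] F q') := by
    rcases Int.natAbs_eq k with hk' | hk'
    · refine ⟨k.natAbs, by omega, q, ?_⟩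
      rw [← hq]
      conv_rhs => rw [hk', zpow_natCast]
    · refine ⟨k.natAbs, by omega, q⁻¹, ?_⟩
      rw [map_inv₀, map_inv₀, ← hq]
      conv_rhs => rw [hk', _root_.zpow_neg, zpow_natCast, inv_inv]
  obtain ⟨k', hk', q', hq'⟩ := key
  refine ⟨g, hg, k', hk', q', fun j => ?_⟩
  refine Rs_zero (eigenvalues_pow hab (k' * j)) (eigenvalues_scalar _) ?_
  rw [pow_mul, hq', map_pow]

include p in
theorem indep (V : AbsGal K →* GL (Fin 2) F) (hV : Continuous V) (hirr : StronglyIrreducible V)
    (ψ : AbsGal K →* F) (hψ : Continuous ψ) (hψ0 : ∀ N : ℕ, 0 < N → ∃ g, ψ g ^ N ≠ 1) :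
    PositiveLowerDensity {v : HeightOneSpectrum (𝓞 K) | ∀ g, IsFrobenius v g →
      ∀ a b : AlgebraicClosure F, Eigenvalues (mat V g) a b → ∀ k l : ℤ,
        a ^ k * algebraMap F (AlgebraicClosure F) (ψ g) ^ l = 1 → k = 0 ∧ l = 0} := by
  apply pos_of
  intro hP
  refine Pool.Agent.H86.FM.Chr.main2 p ((Units.coeHom _).comp V) ψ (Units.continuous_val.comp hV) hψ
    (fun H hH => hirr H hH) hψ0 _ hP ?_
  intro v hv
  simp only [Set.mem_compl_iff, Set.mem_setOf_eq] at hv
  push Not at hv
  obtain ⟨g, hg, a, b, hab, k, l, hkl, hne⟩ := hv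
  obtain ⟨ha, hb⟩ := eigenvalues_ne (M := V g) hab
  obtain ⟨k', l', hk', h⟩ := int_form hkl (fun h => hne h.1 h.2)
  refine ⟨g, hg, k', l', hk', ?_⟩
  have hinv : ψ g * ψ g⁻¹ = 1 := by rw [← map_mul, mul_inv_cancel, map_one]
  rcases h with h | h
  · left
    exact fun j => Rs_pow hab (eigenvalues_scalar _) h j
  · right
    intro j
    refine Rs_pow hab (eigenvalues_scalar _) (k := k') (l := l') ?_ j
    rw [h, ← map_inv₀, eq_inv_of_mul_eq_one_right hinv]

end main

/-- **Frobenius eigenvalues and characters.**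

Let `K` be a number field, `p` a prime number and `F` a finite extension of `ℚ_p` with the absolute
value which extends the `p`-adic one. Let `V` be a continuous strongly irreducible representation of
the absolute Galois group of `K` in `GL_2(F)`.

(1) The set of the finite places `v` of `K` such that for all Frobenius elements `g` at `v` no nonzero
power of an eigenvalue of `V(g)` is contained in `ℚ_p` has positive lower density.

(2) For a continuous character `ψ : G_K → F^×` the set of the finite places `v` such that for all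
Frobenius elements `g` at `v` each eigenvalue of `V(g)` is multiplicatively independent of `ψ(g)` has
positive lower density if and only if `ψ` has infinite order.

(3) The set of the finite places `v` such that for all Frobenius elements `g` at `v` the two
eigenvalues of `V(g)` are multiplicatively independent has positive lower density if and only if
`det V` has infinite order. -/
theorem result {K : Type} [Field K] [NumberField K] (p : ℕ) [Fact p.Prime] {F : Type}
    [NormedField F] [NormedAlgebra ℚ_[p] F] [FiniteDimensional ℚ_[p] F]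
    (V : AbsGal K →* GL (Fin 2) F) (hV : Continuous V) (hirr : StronglyIrreducible V) :
    PositiveLowerDensity {v : HeightOneSpectrum (𝓞 K) | ∀ g, IsFrobenius v g →
      ∀ a b : AlgebraicClosure F, Eigenvalues (mat V g) a b → ∀ k : ℤ, k ≠ 0 → ∀ q : ℚ_[p],
        a ^ k ≠ algebraMap F (AlgebraicClosure F) (algebraMap ℚ_[p] F q)} ∧
    (∀ ψ : AbsGal K →* Fˣ, Continuous ψ →
      (PositiveLowerDensity {v : HeightOneSpectrum (𝓞 K) | ∀ g, IsFrobenius v g →
        ∀ a b : AlgebraicClosure F, Eigenvalues (mat V g) a b → ∀ k l : ℤ,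
          a ^ k * algebraMap F (AlgebraicClosure F) (ψ g : F) ^ l = 1 → k = 0 ∧ l = 0} ↔
        ¬ ∃ N : ℕ, 0 < N ∧ ∀ g, ψ g ^ N = 1)) ∧
    (PositiveLowerDensity {v : HeightOneSpectrum (𝓞 K) | ∀ g, IsFrobenius v g →
      ∀ a b : AlgebraicClosure F, Eigenvalues (mat V g) a b → ∀ k l : ℤ,
        a ^ k * b ^ l = 1 → k = 0 ∧ l = 0} ↔
      ¬ ∃ N : ℕ, 0 < N ∧ ∀ g, (mat V g).det ^ N = 1) := by
  -- the character `det V`
  let δ : AbsGal K →* F :=
    { toFun := fun g => (mat V g).det
      map_one' := by
        unfold mat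
        rw [map_one, Units.val_one, Matrix.det_one]
      map_mul' := by
        intro g h
        unfold mat
        rw [map_mul, Units.val_mul, Matrix.det_mul] }
  have hδ : Continuous δ := (Units.continuous_val.comp hV).matrix_det
  have hset : {v : HeightOneSpectrum (𝓞 K) | ∀ g, IsFrobenius v g →
      ∀ a b : AlgebraicClosure F, Eigenvalues (mat V g) a b → ∀ k l : ℤ,
        a ^ k * b ^ l = 1 → k = 0 ∧ l = 0} = {v : HeightOneSpectrum (𝓞 K) | ∀ g, IsFrobenius v g →
      ∀ a b : AlgebraicClosure F, Eigenvalues (mat V g) a b → ∀ k l : ℤ,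
        a ^ k * algebraMap F (AlgebraicClosure F) (δ g) ^ l = 1 → k = 0 ∧ l = 0} := by
    have hdet : ∀ g (a b : AlgebraicClosure F), Eigenvalues (mat V g) a b →
        algebraMap F (AlgebraicClosure F) (δ g) = a * b := fun g a b hab => (eigenvalues_iff.1 hab).2
    ext v
    constructor
    · intro h g hg a b hab k l hkl
      obtain ⟨ha, hb⟩ := eigenvalues_ne (M := V g) hab
      rw [hdet g a b hab, mul_zpow, ← mul_assoc, ← zpow_add₀ ha] at hkl
      obtain ⟨h1, h2⟩ := h g hg a b hab _ _ hkl
      exact ⟨by omega, h2⟩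
    · intro h g hg a b hab k l hkl
      obtain ⟨ha, hb⟩ := eigenvalues_ne (M := V g) hab
      have h1 : a ^ (k - l) * algebraMap F (AlgebraicClosure F) (δ g) ^ l = 1 := by
        rw [hdet g a b hab, mul_zpow, ← mul_assoc, ← zpow_add₀ ha, sub_add_cancel, hkl]
      obtain ⟨h2, h3⟩ := h g hg a b hab _ _ h1
      exact ⟨by omega, h3⟩
  have easy : ∀ ψ : AbsGal K →* F, PositiveLowerDensity {v : HeightOneSpectrum (𝓞 K) | ∀ g,
      IsFrobenius v g → ∀ a b : AlgebraicClosure F, Eigenvalues (mat V g) a b → ∀ k l : ℤ,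
        a ^ k * algebraMap F (AlgebraicClosure F) (ψ g) ^ l = 1 → k = 0 ∧ l = 0} →
      ¬ ∃ N : ℕ, 0 < N ∧ ∀ g, ψ g ^ N = 1 := by
    rintro ψ hpos ⟨N, hN, h⟩
    obtain ⟨v, hv⟩ := nonempty_of_pos hpos
    obtain ⟨g, hg⟩ := exists_frobenius v
    obtain ⟨a, b, hab⟩ := exists_eigenvalues (mat V g)
    have h1 := (hv g hg a b hab 0 N (by
      rw [zpow_zero, one_mul, zpow_natCast, ← map_pow, h g, map_one])).2
    omega
  refine ⟨powers p V hV hirr, fun ψ hψ => ⟨?_, ?_⟩, ?_⟩
  · intro hpos h
    refine easy ((Units.coeHom F).comp ψ) hpos ?_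
    obtain ⟨N, hN, h⟩ := h
    refine ⟨N, hN, fun g => ?_⟩
    have h1 := congrArg Units.val (h g)
    rwa [Units.val_pow_eq_pow_val, Units.val_one] at h1
  · intro h
    refine indep p V hV hirr ((Units.coeHom F).comp ψ) (Units.continuous_val.comp hψ) ?_
    intro N hN
    by_contra hcon
    push Not at hcon
    refine h ⟨N, hN, fun g => Units.ext ?_⟩
    rw [Units.val_pow_eq_pow_val, Units.val_one]
    exact hcon g
  · rw [hset]
    constructor
    · exact easy δ
    · intro h
      refine indep p V hV hirr δ hδ ?_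
      intro N hN
      by_contra hcon
      push Not at hcon
      exact h ⟨N, hN, hcon⟩

end Pool.Agent.Results.MP_b583a4_nt.EigenvaluesAndCharacters
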