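import Pool.Agent.H86.FM.Sev

/-!
# The discriminants of Frobenius elements in several representations with values in `GL_2(ℚ_p)`

Let `K` be a number field (for the conjecture of Fontaine and Mazur `K = ℚ`) and let
`V_i : G_K → GL_2(ℚ_p)`, `i ∈ I`, be finitely many continuous representations which are strongly
irreducible: absolutely irreducible on every open subgroup. (By Burnside's theorem this means that
the matrices `V_i(h)`, `h ∈ H`, span `M_2(ℚ_p)` for every open subgroup `H`. An absolutely irreducible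
representation is strongly irreducible if and only if it is not dihedral and its projective image is
infinite.) For a matrix `A` let `disc A = tr(A) ^ 2 - 4 det(A)`.

Theorem. The following are equivalent.

(a) No `V_i` is a twist `χ ⊗ V_j` of another `V_j`, `j ≠ i`, by a continuous character.

(b) For all families `d_i` of `p`-adic numbers and all `ε > 0` there is `k₀` such that for all
`k ≥ k₀` the finite places `v` of `K`, such that for all Frobenius elements `g` at `v` and all `i` we
have `|p ^ (- 2 k) disc V_i(g) - d_i| < ε`, have positive lower density.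

(c) For all families `c_i` of nonzero `p`-adic numbers the finite places `v` of `K`, such that for all
Frobenius elements `g` at `v` and all `i` the discriminant of `V_i(g)` is `c_i` times a nonzero square,
have positive lower density. In other words: all families of quadratic or split etale algebras over
`ℚ_p` occur as families of the algebras `ℚ_p[V_i(g)]`.

(d) For all `i ≠ j` the finite places `v` of `K`, such that for all Frobenius elements `g` at `v` the
eigenvalues of `V_i(g)` are in `ℚ_p` and the eigenvalues of `V_j(g)` are not, have positive lower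
density.

So if `V` and `W` are two such representations and if for all `v` outside a set of lower density zero
the matrix `W(Frob_v)` is split over `ℚ_p` if `V(Frob_v)` is split over `ℚ_p`, then `V` is a twist of
`W`. Nothing is assumed on ramification, on the places above `p`, on weights or on algebraicity;
`p = 2` is allowed.

For the conjecture of Fontaine and Mazur: let `V` satisfy the assumptions of the conjecture, and let
`W` be the representation of a newform without complex multiplication, both with coefficients in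
`ℚ_p`. If for all primes `l` outside a set of lower density zero the polynomial of `Frob_l` on `W`
splits over `ℚ_p` if the polynomial of `Frob_l` on `V` does, then `V` is a twist of `W`. (This
paragraph is not part of the formal proof.)

Proof. Let `U` be a small open normal subgroup and let `𝔤` be the Lie algebra over `ℚ_p` of the image
of `U` in the product of the algebras `M_2(ℚ_p)`. Suppose that for some `i ≠ j` the components `X_i` of
all elements `X` of `𝔤` with scalar `X_j` are scalar. From `ad(X)³ = D(X) ad(X)`, where `D` is the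
discriminant, it follows that `D(X_i) = D(X_j)` for all elements of `𝔤`. Then the span of the trace-free
parts of the projection of `𝔤` to the factors `i`, `j` and of the scalars is the graph of an
automorphism of `M_2(ℚ_p)`, which is inner (Skolem-Noether) and commutes with the action of `G_K`; so
`V_i` is a twist of `V_j`. Otherwise the components `X_i` of the elements `X` with scalar `X_j` form
an ideal which contains all matrices of trace zero. Taking commutators one finds that `𝔤` contains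
the product of the algebras of matrices of trace zero. It contains an element `X` with `D(X_i) = d_i`
for all `i`, which is the limit of `p ^ (- k) (V(u_k) - 1)`, `u_k ∈ U`. Then `p ^ (- 2 k) disc V_i(u_k)`
tends to `d_i`, and one applies the theorem of Chebotarev (from the library) to the open set of all
`g` with `|p ^ (- 2 k) disc V_i(g) - d_i| < ε` for all `i`.
-/

set_option autoImplicit false

namespace Pool.Agent.Results.MP_b583a4_nt.FrobeniusDiscriminants

open NumberField IsDedekindDomain Filter Matrix Topology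

/-- the absolute Galois group of the field `K`, with the Krull topology -/
abbrev AbsGal (K : Type) [Field K] : Type := Gal(AlgebraicClosure K/K)

/-- `g` is an (arithmetic) Frobenius element at a maximal ideal `Q` of the ring of all algebraic
integers which lies above the finite place `v` of `K`. -/
def IsFrobenius {K : Type} [Field K] [NumberField K] (v : HeightOneSpectrum (𝓞 K))
    (g : AbsGal K) : Prop :=
  ∃ Q : Ideal (𝓞 (AlgebraicClosure K)), Q.IsMaximal ∧
    Q.comap (algebraMap (𝓞 K) (𝓞 (AlgebraicClosure K))) = v.asIdeal ∧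
    ∀ x : 𝓞 (AlgebraicClosure K), g • x - x ^ Ideal.absNorm v.asIdeal ∈ Q

/-- The set `P` of finite places of `K` has positive lower density: for some `δ > 0` and all large
`x` it contains at least `δ π(x)` places of norm at most `x`. -/
def PositiveLowerDensity {K : Type} [Field K] [NumberField K]
    (P : Set (HeightOneSpectrum (𝓞 K))) : Prop :=
  ∃ δ : ℝ, 0 < δ ∧ ∀ᶠ x : ℕ in atTop,
    δ * Nat.primeCounting x ≤ ({v ∈ P | Ideal.absNorm v.asIdeal ≤ x}.ncard : ℝ)

section
variable {K F : Type} [Field K] [Field F]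

/-- the matrix of `g` -/
noncomputable def mat (ρ : AbsGal K →* GL (Fin 2) F) (g : AbsGal K) : Matrix (Fin 2) (Fin 2) F :=
  (ρ g : GL (Fin 2) F)

/-- `ρ` is absolutely irreducible on every open subgroup `H`: the matrices `ρ(h)`, `h ∈ H`, span the
space of all two by two matrices. -/
def StronglyIrreducible (ρ : AbsGal K →* GL (Fin 2) F) : Prop :=
  ∀ H : Subgroup (AbsGal K), IsOpen (H : Set (AbsGal K)) →
    Submodule.span F (mat ρ '' (H : Set (AbsGal K))) = ⊤

/-- `V` is isomorphic to a twist of `W` by a continuous character. -/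
def IsTwist [TopologicalSpace F] (V W : AbsGal K →* GL (Fin 2) F) : Prop :=
  ∃ χ : AbsGal K →* Fˣ, Continuous χ ∧ ∃ M : GL (Fin 2) F, ∀ g,
    mat V g = (χ g : F) • ((M * W g * M⁻¹ : GL (Fin 2) F) : Matrix (Fin 2) (Fin 2) F)

/-- the discriminant of the characteristic polynomial -/
def disc (A : Matrix (Fin 2) (Fin 2) F) : F := A.trace ^ 2 - 4 * A.det

/-- the eigenvalues of `A` are in the field `F` -/
def Split (A : Matrix (Fin 2) (Fin 2) F) : Prop :=
  ∃ a b : F, A.charpoly = (Polynomial.X - Polynomial.C a) * (Polynomial.X - Polynomial.C b)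

end

section aux

theorem split_iff {F : Type} [Field F] [CharZero F] {A : Matrix (Fin 2) (Fin 2) F} :
    Split A ↔ ∃ s : F, disc A = s ^ 2 := by
  have h2 : (2 : F) ≠ 0 := two_ne_zero
  constructor
  · rintro ⟨a, b, h⟩
    have h0 := congrArg (fun P : Polynomial F => P.coeff 0) h
    have h1 := congrArg (fun P : Polynomial F => P.coeff 1) h
    rw [Matrix.charpoly_fin_two] at h0 h1
    have e : (Polynomial.X - Polynomial.C a) * (Polynomial.X - Polynomial.C b) =
        Polynomial.X ^ 2 - Polynomial.C (a + b) * Polynomial.X + Polynomial.C (a * b) := by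
      rw [Polynomial.C_add, Polynomial.C_mul]
      ring
    rw [e] at h0 h1
    simp [Polynomial.coeff_X] at h0 h1
    have h3 : A.trace = a + b := by linear_combination -h1
    refine ⟨a - b, ?_⟩
    unfold disc
    rw [h0, h3]
    ring
  · rintro ⟨s, hs⟩
    refine ⟨(A.trace + s) / 2, (A.trace - s) / 2, ?_⟩
    rw [Matrix.charpoly_fin_two]
    have e : (Polynomial.X - Polynomial.C ((A.trace + s) / 2)) *
        (Polynomial.X - Polynomial.C ((A.trace - s) / 2)) =
        Polynomial.X ^ 2 - Polynomial.C ((A.trace + s) / 2 + (A.trace - s) / 2) * Polynomial.X +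
          Polynomial.C ((A.trace + s) / 2 * ((A.trace - s) / 2)) := by
      rw [Polynomial.C_add, Polynomial.C_mul]
      ring
    rw [e]
    have e1 : (A.trace + s) / 2 + (A.trace - s) / 2 = A.trace := by
      field_simp
      ring
    have e2 : (A.trace + s) / 2 * ((A.trace - s) / 2) = A.det := by
      unfold disc at hs
      field_simp
      linear_combination hs
    rw [e1, e2]

/-- there is a Frobenius element at each finite place -/
theorem exists_frobenius {K : Type} [Field K] [NumberField K] (v : HeightOneSpectrum (𝓞 K)) :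
    ∃ g, IsFrobenius v g := by
  have hint : Algebra.IsIntegral (𝓞 K) (𝓞 (AlgebraicClosure K)) := by
    constructor
    intro x
    have h := RingOfIntegers.isIntegral x
    exact h.tower_top
  have hv : v.asIdeal.IsMaximal := v.isMaximal
  obtain ⟨Q, hQ, hQ'⟩ := Ideal.exists_ideal_over_maximal_of_isIntegral
    (R := 𝓞 K) (S := 𝓞 (AlgebraicClosure K)) v.asIdeal (by
      rw [(RingHom.injective_iff_ker_eq_bot _).mp
        (FaithfulSMul.algebraMap_injective (𝓞 K) (𝓞 (AlgebraicClosure K)))]
      exact bot_le)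
  obtain ⟨σ, hσ⟩ := Pool.Agent.W352.ChAbs.exists_frob v Q hQ'
  exact ⟨σ, Q, hQ, hQ', hσ⟩

theorem pos_of {K : Type} [Field K] [NumberField K] {S : Set (HeightOneSpectrum (𝓞 K))}
    (h : ¬ ∀ ε : ℝ, 0 < ε → ∃ᶠ x : ℕ in atTop, Pool.Agent.W401.Cheb.dens (fun v => v ∉ Sᶜ) x ≤ ε) :
    PositiveLowerDensity S := by
  by_contra hcon
  apply h
  intro ε hε
  have h1 : ¬ ∀ᶠ x : ℕ in atTop, ε * Nat.primeCounting x ≤
      (({v ∈ S | Ideal.absNorm v.asIdeal ≤ x}).ncard : ℝ) := fun h => hcon ⟨ε, hε, h⟩
  have h2 := (Filter.not_eventually.1 h1)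
  refine (h2.and_eventually
    (Nat.tendsto_primeCounting.eventually_gt_atTop 0)).mono ?_
  rintro x ⟨h3, h4⟩
  have h5 : (0 : ℝ) < (Nat.primeCounting x : ℝ) := by exact_mod_cast h4
  unfold Pool.Agent.W401.Cheb.dens
  rw [div_le_iff₀ h5]
  push Not at h3
  refine le_trans (le_of_eq ?_) h3.le
  have h6 : {v : HeightOneSpectrum (𝓞 K) | Ideal.absNorm v.asIdeal ≤ x ∧ v ∉ Sᶜ} =
      {v ∈ S | Ideal.absNorm v.asIdeal ≤ x} := by
    ext v
    simp only [Set.mem_setOf_eq, Set.mem_compl_iff, not_not]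
    exact and_comm
  rw [← h6]
  rfl

theorem nonempty_of_pos {K : Type} [Field K] [NumberField K] {S : Set (HeightOneSpectrum (𝓞 K))}
    (h : PositiveLowerDensity S) : ∃ v, v ∈ S := by
  obtain ⟨δ, hδ, h⟩ := h
  by_contra hcon
  push Not at hcon
  obtain ⟨x, h1, h2⟩ := (h.and (Nat.tendsto_primeCounting.eventually_gt_atTop 0)).exists
  have h3 : ({v ∈ S | Ideal.absNorm v.asIdeal ≤ x}) = ∅ := by
    rw [Set.eq_empty_iff_forall_notMem]
    rintro v ⟨hv, -⟩
    exact hcon v hv
  rw [h3, Set.ncard_empty, Nat.cast_zero] at h1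
  have h4 : (0 : ℝ) < Nat.primeCounting x := by exact_mod_cast h2
  have h5 := mul_pos hδ h4
  linarith

theorem PositiveLowerDensity.mono {K : Type} [Field K] [NumberField K]
    {S T : Set (HeightOneSpectrum (𝓞 K))} (h : PositiveLowerDensity S) (hST : S ⊆ T) :
    PositiveLowerDensity T := by
  obtain ⟨δ, hδ, h⟩ := h
  refine ⟨δ, hδ, h.mono fun x hx => hx.trans ?_⟩
  have hfin : ({v ∈ T | Ideal.absNorm v.asIdeal ≤ x}).Finite :=
    (Pool.Agent.W352.ChAbs.finite_le (K := K) x).subset (fun v hv => hv.2)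
  have h1 : {v ∈ S | Ideal.absNorm v.asIdeal ≤ x} ⊆ {v ∈ T | Ideal.absNorm v.asIdeal ≤ x} :=
    fun v hv => ⟨hST hv.1, hv.2⟩
  exact_mod_cast Set.ncard_le_ncard h1 hfin

/-- nonempty open sets which are stable under conjugation -/
theorem pos_of_open {K : Type} [Field K] [NumberField K] {O : Set (AbsGal K)} (hO : IsOpen O)
    (hconj : ∀ σ τ : AbsGal K, τ * σ * τ⁻¹ ∈ O → σ ∈ O) (hne : ∃ g, g ∈ O) :
    PositiveLowerDensity {v : HeightOneSpectrum (𝓞 K) | ∀ g, IsFrobenius v g → g ∈ O} := by
  obtain ⟨g₀, hg₀⟩ := hne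
  apply pos_of
  intro hP
  refine Pool.Agent.N817.PL.Main2.closed_univ Oᶜ hO.isClosed_compl ?_ _ hP ?_ g₀ hg₀
  · intro σ hσ τ h
    exact hσ (hconj σ τ h)
  · intro v hv
    simp only [Set.mem_compl_iff, Set.mem_setOf_eq] at hv
    push Not at hv
    obtain ⟨g, hg, hgO⟩ := hv
    exact ⟨g, hgO, hg⟩

/-- the numbers near a nonzero `p`-adic number -/
theorem exists_near (p : ℕ) [Fact p.Prime] (c : ℚ_[p]) (hc : c ≠ 0) : ∃ ε : ℝ, 0 < ε ∧
    ∀ x : ℚ_[p], ‖x - c‖ < ε → ∃ t : ℚ_[p], t ≠ 0 ∧ x = c * t ^ 2 := by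
  have h1 : HasStrictDerivAt (fun t : ℚ_[p] => c * t ^ 2) (c * (2 * 1 ^ (2 - 1) * 1)) 1 := by
    have := ((hasStrictDerivAt_id (1 : ℚ_[p])).pow 2).const_mul c
    simpa using this
  have h2 : c * (2 * 1 ^ (2 - 1) * 1) ≠ 0 := by
    have : (2 : ℚ_[p]) ≠ 0 := two_ne_zero
    simp [hc, this]
  have h3 := h1.map_nhds_eq h2
  have h4 : {x : ℚ_[p] | ∃ t : ℚ_[p], t ≠ 0 ∧ x = c * t ^ 2} ∈ 𝓝 c := by
    have h5 : {x : ℚ_[p] | ∃ t : ℚ_[p], t ≠ 0 ∧ x = c * t ^ 2} ∈
        Filter.map (fun t : ℚ_[p] => c * t ^ 2) (𝓝 1) := by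
      rw [Filter.mem_map]
      filter_upwards [isOpen_ne.mem_nhds (one_ne_zero (α := ℚ_[p]))] with t ht
      exact ⟨t, ht, rfl⟩
    rw [h3] at h5
    simpa using h5
  obtain ⟨ε, hε, h⟩ := Metric.mem_nhds_iff.1 h4
  exact ⟨ε, hε, fun x hx => h (by rwa [Metric.mem_ball, dist_eq_norm])⟩

theorem not_square (p : ℕ) [hp : Fact p.Prime] (s : ℚ_[p]) : (p : ℚ_[p]) ≠ s ^ 2 := by
  intro h
  have hp1 : (1 : ℝ) < p := by exact_mod_cast hp.out.one_lt
  have hs : s ≠ 0 := by
    rintro rfl
    have : (p : ℚ_[p]) ≠ 0 := by exact_mod_cast hp.out.ne_zero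
    exact this (by rw [h]; simp)
  have h1 := congrArg (fun x : ℚ_[p] => x.valuation) h
  simp only [Padic.valuation_p, Padic.valuation_pow] at h1
  omega

end aux

section main

variable {K : Type} [Field K] [NumberField K] {p : ℕ} [Fact p.Prime]

/-- the twist -/
theorem isTwist_of (V W : AbsGal K →* GL (Fin 2) ℚ_[p]) (hV : Continuous V) (hW : Continuous W)
    (h : ∃ T : (Matrix (Fin 2) (Fin 2) ℚ_[p])ˣ, ∀ g, ∃ c : ℚ_[p], mat V g =
      c • (((T⁻¹ : (Matrix (Fin 2) (Fin 2) ℚ_[p])ˣ) : Matrix (Fin 2) (Fin 2) ℚ_[p]) * mat W g * T)) :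
    IsTwist V W := by
  obtain ⟨T, hT⟩ := h
  choose c hc using hT
  have hWc : Continuous fun g : AbsGal K => mat W g⁻¹ :=
    Units.continuous_val.comp (hW.comp continuous_inv)
  have hVc : Continuous fun g : AbsGal K => mat V g := Units.continuous_val.comp hV
  have hinv : ∀ g, mat W g * mat W g⁻¹ = 1 := by
    intro g
    unfold mat
    rw [← Units.val_mul, ← map_mul, mul_inv_cancel, map_one, Units.val_one]
  have hform : ∀ g, mat V g * (((T⁻¹ : (Matrix (Fin 2) (Fin 2) ℚ_[p])ˣ) :
      Matrix (Fin 2) (Fin 2) ℚ_[p]) * mat W g⁻¹ * T) = c g • 1 := by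
    intro g
    rw [hc g, smul_mul_assoc]
    congr 1
    calc _ = ((T⁻¹ : (Matrix (Fin 2) (Fin 2) ℚ_[p])ˣ) : Matrix (Fin 2) (Fin 2) ℚ_[p]) * mat W g *
          ((T : Matrix (Fin 2) (Fin 2) ℚ_[p]) *
            ((T⁻¹ : (Matrix (Fin 2) (Fin 2) ℚ_[p])ˣ) : Matrix (Fin 2) (Fin 2) ℚ_[p])) *
            mat W g⁻¹ * T := by
          simp only [mul_assoc]
      _ = ((T⁻¹ : (Matrix (Fin 2) (Fin 2) ℚ_[p])ˣ) : Matrix (Fin 2) (Fin 2) ℚ_[p]) *
          (mat W g * mat W g⁻¹) * T := by
          rw [T.mul_inv, mul_one]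
          simp only [mul_assoc]
      _ = 1 := by rw [hinv, mul_one, T.inv_mul]
  have hcval : ∀ g, c g = (mat V g * (((T⁻¹ : (Matrix (Fin 2) (Fin 2) ℚ_[p])ˣ) :
      Matrix (Fin 2) (Fin 2) ℚ_[p]) * mat W g⁻¹ * T)) 0 0 := by
    intro g
    rw [hform g]
    simp
  have hccont : Continuous c := by
    have h1 : Continuous fun g => mat V g * (((T⁻¹ : (Matrix (Fin 2) (Fin 2) ℚ_[p])ˣ) :
        Matrix (Fin 2) (Fin 2) ℚ_[p]) * mat W g⁻¹ * T) :=
      hVc.mul ((continuous_const.mul hWc).mul continuous_const)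
    exact (h1.matrix_elem 0 0).congr fun g => (hcval g).symm
  have hc1 : c 1 = 1 := by
    have h1 := hform 1
    have h2 : mat V 1 = 1 := by
      unfold mat
      rw [map_one, Units.val_one]
    have h3 : mat W (1 : AbsGal K)⁻¹ = 1 := by
      unfold mat
      rw [inv_one, map_one, Units.val_one]
    rw [h2, h3, mul_one, T.inv_mul, mul_one] at h1
    have := congrFun (congrFun h1 0) 0
    simpa using this.symm
  have hcmul : ∀ g h, c (g * h) = c g * c h := by
    intro g h
    have e1 : mat V (g * h) = mat V g * mat V h := by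
      unfold mat
      rw [map_mul, Units.val_mul]
    have e2 : mat W (g * h)⁻¹ = mat W h⁻¹ * mat W g⁻¹ := by
      unfold mat
      rw [_root_.mul_inv_rev, map_mul, Units.val_mul]
    have h1 := hform (g * h)
    rw [e1, e2] at h1
    have h2 : mat V g * mat V h * (((T⁻¹ : (Matrix (Fin 2) (Fin 2) ℚ_[p])ˣ) :
        Matrix (Fin 2) (Fin 2) ℚ_[p]) * (mat W h⁻¹ * mat W g⁻¹) * T) = (c g * c h) • 1 := by
      calc _ = mat V g * (mat V h * (((T⁻¹ : (Matrix (Fin 2) (Fin 2) ℚ_[p])ˣ) :
            Matrix (Fin 2) (Fin 2) ℚ_[p]) * mat W h⁻¹ * ((T : Matrix (Fin 2) (Fin 2) ℚ_[p]) *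
            ((T⁻¹ : (Matrix (Fin 2) (Fin 2) ℚ_[p])ˣ) : Matrix (Fin 2) (Fin 2) ℚ_[p])) *
            mat W g⁻¹ * T)) := by
            rw [T.mul_inv, mul_one]
            simp only [mul_assoc]
        _ = mat V g * ((mat V h * (((T⁻¹ : (Matrix (Fin 2) (Fin 2) ℚ_[p])ˣ) :
            Matrix (Fin 2) (Fin 2) ℚ_[p]) * mat W h⁻¹ * T)) *
            (((T⁻¹ : (Matrix (Fin 2) (Fin 2) ℚ_[p])ˣ) : Matrix (Fin 2) (Fin 2) ℚ_[p]) *
            mat W g⁻¹ * T)) := by
            simp only [mul_assoc]
        _ = c h • (mat V g * (((T⁻¹ : (Matrix (Fin 2) (Fin 2) ℚ_[p])ˣ) :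
            Matrix (Fin 2) (Fin 2) ℚ_[p]) * mat W g⁻¹ * T)) := by
            rw [hform h, smul_mul_assoc, one_mul, mul_smul_comm]
        _ = _ := by rw [hform g, smul_smul, mul_comm]
    rw [h2] at h1
    have := congrFun (congrFun h1 0) 0
    simpa using this.symm
  let χ₀ : AbsGal K →* ℚ_[p] :=
    { toFun := c
      map_one' := hc1
      map_mul' := hcmul }
  let χ : AbsGal K →* ℚ_[p]ˣ := χ₀.toHomUnits
  have hχ : ∀ g, (χ g : ℚ_[p]) = c g := fun g => rfl
  refine ⟨χ, ?_, T⁻¹, fun g => ?_⟩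
  · rw [Units.continuous_iff]
    refine ⟨hccont, ?_⟩
    have h1 : (fun g => ((χ g)⁻¹ : ℚ_[p]ˣ).val) = fun g => c g⁻¹ := by
      ext g
      rw [← map_inv]
      rfl
    change Continuous fun g => ((χ g)⁻¹ : ℚ_[p]ˣ).val
    rw [h1]
    exact hccont.comp continuous_inv
  · rw [hχ, hc g, inv_inv]
    rfl

/-- the discriminants of a twist -/
theorem disc_of_twist {V W : AbsGal K →* GL (Fin 2) ℚ_[p]} (h : IsTwist V W) (g : AbsGal K) :
    ∃ c : ℚ_[p], c ≠ 0 ∧ disc (mat V g) = c ^ 2 * disc (mat W g) := by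
  obtain ⟨χ, -, M, hM⟩ := h
  refine ⟨χ g, (χ g).ne_zero, ?_⟩
  have hconj : ((M * W g * M⁻¹ : GL (Fin 2) ℚ_[p]) : Matrix (Fin 2) (Fin 2) ℚ_[p]) =
      (M : Matrix (Fin 2) (Fin 2) ℚ_[p]) * mat W g *
        ((M⁻¹ : GL (Fin 2) ℚ_[p]) : Matrix (Fin 2) (Fin 2) ℚ_[p]) := rfl
  have hMi : ((M⁻¹ : GL (Fin 2) ℚ_[p]) : Matrix (Fin 2) (Fin 2) ℚ_[p]) *
      (M : Matrix (Fin 2) (Fin 2) ℚ_[p]) = 1 := by
    rw [← Units.val_mul, inv_mul_cancel, Units.val_one]
  have ht : (mat V g).trace = (χ g : ℚ_[p]) * (mat W g).trace := by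
    rw [hM, hconj, Matrix.trace_smul, Matrix.trace_mul_comm, ← mul_assoc, hMi, one_mul, smul_eq_mul]
  have hd : (mat V g).det = (χ g : ℚ_[p]) ^ 2 * (mat W g).det := by
    rw [hM, hconj, Matrix.det_smul, Matrix.det_mul, Matrix.det_mul, Fintype.card_fin]
    have := congrArg Matrix.det hMi
    rw [Matrix.det_mul, Matrix.det_one] at this
    linear_combination (χ g : ℚ_[p]) ^ 2 * (mat W g).det * this
  unfold disc
  rw [ht, hd]
  ring

theorem disc_conj (V : AbsGal K →* GL (Fin 2) ℚ_[p]) (σ τ : AbsGal K) :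
    disc (mat V (τ * σ * τ⁻¹)) = disc (mat V σ) := by
  have e : mat V (τ * σ * τ⁻¹) = mat V τ * mat V σ * mat V τ⁻¹ := by
    unfold mat
    rw [map_mul, map_mul, Units.val_mul, Units.val_mul]
  have hi : mat V τ * mat V τ⁻¹ = 1 := by
    unfold mat
    rw [← Units.val_mul, ← map_mul, mul_inv_cancel, map_one, Units.val_one]
  rw [e]
  exact Pool.Agent.H86.FM.Alg.D_conj hi (mat V σ)

theorem continuous_disc (V : AbsGal K →* GL (Fin 2) ℚ_[p]) (hV : Continuous V) :
    Continuous fun g => disc (mat V g) := by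
  have hVc : Continuous fun g : AbsGal K => mat V g := Units.continuous_val.comp hV
  exact ((hVc.matrix_trace).pow 2).sub (continuous_const.mul hVc.matrix_det)

end main

/-- **The discriminants of Frobenius elements in several representations.**

Let `K` be a number field, `p` a prime number, and let `V i`, `i ∈ ι`, be finitely many continuous
strongly irreducible representations of the absolute Galois group of `K` in `GL_2(ℚ_p)`. The
following are equivalent.

(a) There are no `i ≠ j` such that `V i` is a twist of `V j` by a continuous character.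

(b) For all `d i ∈ ℚ_p` and all `ε > 0` there is `k₀` such that for all `k ≥ k₀` the set of the
finite places `v` with `|p ^ (- 2 k) disc (V i (g)) - d i| < ε` for all Frobenius elements `g` at `v`
and all `i` has positive lower density.

(c) For all nonzero `c i ∈ ℚ_p` the set of the finite places `v`, such that for all Frobenius elements
`g` at `v` and all `i` the discriminant of `V i (g)` is `c i` times a nonzero square, has positive lower
density.

(d) For all `i ≠ j` the set of the finite places `v`, such that for all Frobenius elements `g` at `v`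
the eigenvalues of `V i (g)` are in `ℚ_p` and those of `V j (g)` are not, has positive lower density. -/
theorem result {K : Type} [Field K] [NumberField K] (p : ℕ) [Fact p.Prime] {ι : Type} [Finite ι]
    (V : ι → AbsGal K →* GL (Fin 2) ℚ_[p]) (hV : ∀ i, Continuous (V i))
    (hirr : ∀ i, StronglyIrreducible (V i)) :
    List.TFAE [
      -- (a)
      ∀ i j, i ≠ j → ¬ IsTwist (V i) (V j),
      -- (b)
      ∀ (d : ι → ℚ_[p]) (ε : ℝ), 0 < ε → ∃ k₀ : ℕ, ∀ k, k₀ ≤ k →
        PositiveLowerDensity {v : HeightOneSpectrum (𝓞 K) | ∀ g, IsFrobenius v g →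
          ∀ i, ‖((p : ℚ_[p]) ^ (2 * k))⁻¹ * disc (mat (V i) g) - d i‖ < ε},
      -- (c)
      ∀ c : ι → ℚ_[p]ˣ, PositiveLowerDensity {v : HeightOneSpectrum (𝓞 K) | ∀ g, IsFrobenius v g →
        ∀ i, ∃ t : ℚ_[p], t ≠ 0 ∧ disc (mat (V i) g) = c i * t ^ 2},
      -- (d)
      ∀ i j, i ≠ j → PositiveLowerDensity {v : HeightOneSpectrum (𝓞 K) | ∀ g, IsFrobenius v g →
        Split (mat (V i) g) ∧ ¬ Split (mat (V j) g)}] := by
  classical
  have := Fintype.ofFinite ι
  tfae_have 1 → 2 := by
    intro hnt d ε hε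
    obtain ⟨k₀, hk₀⟩ := Pool.Agent.H86.FM.Sev.main (fun i => (Units.coeHom _).comp (V i))
      (fun i => Units.continuous_val.comp (hV i)) (fun i H hH => hirr i H hH)
      (fun i j hij hT => hnt i j hij (isTwist_of (V i) (V j) (hV i) (hV j) hT)) d hε
    refine ⟨k₀, fun k hk => ?_⟩
    refine pos_of_open (O := {g | ∀ i, ‖((p : ℚ_[p]) ^ (2 * k))⁻¹ * disc (mat (V i) g) - d i‖ < ε})
      ?_ ?_ ?_
    · have h1 : {g | ∀ i, ‖((p : ℚ_[p]) ^ (2 * k))⁻¹ * disc (mat (V i) g) - d i‖ < ε} =
          ⋂ i, {g | ‖((p : ℚ_[p]) ^ (2 * k))⁻¹ * disc (mat (V i) g) - d i‖ < ε} := by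
        ext g
        simp
      rw [h1]
      refine isOpen_iInter_of_finite fun i => ?_
      exact isOpen_lt ((continuous_const.mul (continuous_disc (V i) (hV i))).sub
        continuous_const).norm continuous_const
    · intro σ τ h i
      have := h i
      rwa [disc_conj] at this
    · obtain ⟨g, hg⟩ := hk₀ k hk
      exact ⟨g, hg⟩
  tfae_have 2 → 3 := by
    intro h c
    choose ε hε hnear using fun i => exists_near p (c i : ℚ_[p]) (c i).ne_zero
    have hmin : ∃ ε₀ : ℝ, 0 < ε₀ ∧ ∀ i, ε₀ ≤ ε i := by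
      by_cases hι : Nonempty ι
      · obtain ⟨i₀, hi₀⟩ := Finite.exists_min ε
        exact ⟨ε i₀, hε i₀, hi₀⟩
      · exact ⟨1, one_pos, fun i => absurd ⟨i⟩ hι⟩
    obtain ⟨ε₀, hε₀, hle⟩ := hmin
    obtain ⟨k₀, hk₀⟩ := h (fun i => c i) ε₀ hε₀
    refine (hk₀ k₀ le_rfl).mono fun v hv g hg i => ?_
    obtain ⟨t, ht, h1⟩ := hnear i _ ((hv g hg i).trans_le (hle i))
    have hp0 : (p : ℚ_[p]) ≠ 0 := by exact_mod_cast (Fact.out : p.Prime).ne_zero
    refine ⟨(p : ℚ_[p]) ^ k₀ * t, mul_ne_zero (pow_ne_zero _ hp0) ht, ?_⟩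
    have h2 : disc (mat (V i) g) = (p : ℚ_[p]) ^ (2 * k₀) *
        (((p : ℚ_[p]) ^ (2 * k₀))⁻¹ * disc (mat (V i) g)) := by
      rw [mul_inv_cancel_left₀ (pow_ne_zero _ hp0)]
    rw [h2, h1]
    ring
  tfae_have 3 → 4 := by
    intro h i j hij
    have hp0 : (p : ℚ_[p]) ≠ 0 := by exact_mod_cast (Fact.out : p.Prime).ne_zero
    refine (h fun k => if k = j then Units.mk0 (p : ℚ_[p]) hp0 else 1).mono fun v hv g hg => ?_
    constructor
    · obtain ⟨t, ht, h1⟩ := hv g hg i
      rw [if_neg hij, Units.val_one, one_mul] at h1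
      exact split_iff.2 ⟨t, h1⟩
    · intro hs
      obtain ⟨s, hs⟩ := split_iff.1 hs
      obtain ⟨t, ht, h1⟩ := hv g hg j
      rw [if_pos rfl, Units.val_mk0, hs] at h1
      refine not_square p (s / t) ?_
      rw [div_pow]
      field_simp
      exact h1.symm
  tfae_have 4 → 1 := by
    intro h i j hij htw
    obtain ⟨v, hv⟩ := nonempty_of_pos (h i j hij)
    obtain ⟨g, hg⟩ := exists_frobenius v
    obtain ⟨h1, h2⟩ := hv g hg
    obtain ⟨c, hc, h3⟩ := disc_of_twist htw g
    obtain ⟨s, hs⟩ := split_iff.1 h1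
    refine h2 (split_iff.2 ⟨s / c, ?_⟩)
    rw [div_pow, ← hs, h3]
    field_simp
  tfae_finish

end Pool.Agent.Results.MP_b583a4_nt.FrobeniusDiscriminants
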