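import Pool.Agent.H86.FM.Mn

/-!
# Two-dimensional representations with multiplicatively dependent ratios of Frobenius eigenvalues

Let `K` be a number field (for the conjecture `K = ℚ`), `F` a finite extension of `ℚ_p` and
`V`, `W : G_K → GL_2(F)` continuous representations. Suppose that `V` is strongly irreducible: it is
absolutely irreducible on every open subgroup. (By Burnside's theorem this means that the matrices
`V(h)`, `h ∈ H`, span `M_2(F)` for every open subgroup `H`. An absolutely irreducible `V` is strongly
irreducible if and only if it is not dihedral and its projective image is infinite.) Nothing is assumed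
on `W` except that it is continuous.

Theorem. The following are equivalent.

(a) The finite places `v` of `K` such that for every Frobenius element `g` at `v` the ratio of the
eigenvalues of `V(g)` and the ratio of the eigenvalues of `W(g)` are multiplicatively independent,
have positive lower density.

(b) `V` is not a twist `χ ⊗ W` of `W` by a continuous character `χ : G_K → F^×`, and there is no
`N > 0` such that for all `g` in `G_K` the ratio of the eigenvalues of `W(g)` is an `N`-th root of one.

So if `W` is, for example, also strongly irreducible, and if for all `v` outside a set of lower density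
zero there are integers `k_v`, `l_v`, not both zero, such that
`(α_v / β_v) ^ {k_v} = (γ_v / δ_v) ^ {l_v}` where `α_v`, `β_v` are the eigenvalues of `V(Frob_v)` and
`γ_v`, `δ_v` those of `W(Frob_v)`, then `V` is a twist of `W`. The exponents are arbitrary and may depend
on `v`. Nothing is assumed on ramification, on the places above `p`, on weights, or on algebraicity of
the eigenvalues; `p = 2` is allowed. Another example is `W = 1 ⊕ χ` with a character `χ` of infinite
order, for example the cyclotomic character: a ratio of Frobenius eigenvalues of `V` and `Nv` are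
multiplicatively independent for all `v` in a set of positive lower density.

For the conjecture of Fontaine and Mazur: let `V` satisfy the assumptions of the conjecture, and let `W`
be the representation of a newform without complex multiplication. If the ratios are multiplicatively
dependent for all primes outside a set of lower density zero, then `V` is a twist of `W`. (This
paragraph is not part of the formal proof.)

Proof. (1) Let `D(X) = tr(X)² - 4 det(X)`. If the ratios of the eigenvalues of `A = V(g)` and
`B = W(g)` are multiplicatively dependent and `N` is such that `A ^ N`, `B ^ N` are near `1` then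
`k² D(log A ^ N) = l² D(log B ^ N)` with `k`, `l` not both zero, that is the quotient of
`D(log A ^ N)` and `D(log B ^ N)` is a square in `ℚ_p` (or `0` or `∞`). By compactness of `ℤ_p` the
set of all such `g` is closed; so by the theorem of Chebotarev (from the library) it is `G_K` if the
lower density is zero. (2) Hence `D(X) / D(Y)` is a square in `ℚ_p` for all `(X, Y)` in the Lie algebra
`𝔤` of `(V, W)(U)`, `U` small. (3) If `(Z, 0)`, with `Z` in an ideal, were in `𝔤`, then one could find
`Z₁`, `Z₂` orthogonal with `D(x Z₁ + y Z₂) = (x² + y²) d` a square times `d`; so `p` would be a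
square in `ℚ_p`. So `𝔤` modulo scalars is the graph of an isomorphism. (4) With
`ad(X)³ = D(X) ad(X)` one finds `D(X) = D(Y)` for all `(X, Y)` in `𝔤`. (5) It follows that the span of
the trace-free parts of `𝔤` and the scalars is the graph of an automorphism of the algebra `M_2(F)`,
which is inner (Skolem-Noether) and commutes with the action of `G_K`.
-/

set_option autoImplicit false

namespace Pool.Agent.Results.MP_b583a4_nt.MultiplicativeDependence

open NumberField IsDedekindDomain Filter Matrix

/-- the absolute Galois group of the field `K`, with the Krull topology -/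
abbrev AbsGal (K : Type) [Field K] : Type := Gal(AlgebraicClosure K/K)

/-- `g` is an (arithmetic) Frobenius element at a maximal ideal `Q` of the ring of all algebraic
integers which lies above the finite place `v` of `K`. -/
def IsFrobenius {K : Type} [Field K] [NumberField K] (v : HeightOneSpectrum (𝓞 K))
    (g : AbsGal K) : Prop :=
  ∃ Q : Ideal (𝓞 (AlgebraicClosure K)), Q.IsMaximal ∧
    Q.comap (algebraMap (𝓞 K) (𝓞 (AlgebraicClosure K))) = v.asIdeal ∧
    ∀ x : 𝓞 (AlgebraicClosure K), g • x - x ^ Ideal.absNorm v.asIdeal ∈ Q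

/-- The set `P` of finite places of `K` has positive lower density: for some `δ > 0` and all large
`x` it contains at least `δ π(x)` places of norm at most `x`. -/
def PositiveLowerDensity {K : Type} [Field K] [NumberField K]
    (P : Set (HeightOneSpectrum (𝓞 K))) : Prop :=
  ∃ δ : ℝ, 0 < δ ∧ ∀ᶠ x : ℕ in atTop,
    δ * Nat.primeCounting x ≤ ({v ∈ P | Ideal.absNorm v.asIdeal ≤ x}.ncard : ℝ)

section
variable {K F : Type} [Field K] [Field F]

/-- the matrix of `g` -/
noncomputable def mat (ρ : AbsGal K →* GL (Fin 2) F) (g : AbsGal K) : Matrix (Fin 2) (Fin 2) F :=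
  (ρ g : GL (Fin 2) F)

/-- `ρ` is absolutely irreducible on every open subgroup `H`: the matrices `ρ(h)`, `h ∈ H`, span the
space of all two by two matrices. -/
def StronglyIrreducible (ρ : AbsGal K →* GL (Fin 2) F) : Prop :=
  ∀ H : Subgroup (AbsGal K), IsOpen (H : Set (AbsGal K)) →
    Submodule.span F (mat ρ '' (H : Set (AbsGal K))) = ⊤

/-- `V` is isomorphic to a twist of `W` by a continuous character. -/
def IsTwist [TopologicalSpace F] (V W : AbsGal K →* GL (Fin 2) F) : Prop :=
  ∃ χ : AbsGal K →* Fˣ, Continuous χ ∧ ∃ M : GL (Fin 2) F, ∀ g,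
    mat V g = (χ g : F) • ((M * W g * M⁻¹ : GL (Fin 2) F) : Matrix (Fin 2) (Fin 2) F)

/-- `a`, `b` are the eigenvalues of the matrix `A`, with multiplicities. -/
def Eigenvalues (A : Matrix (Fin 2) (Fin 2) F) (a b : AlgebraicClosure F) : Prop :=
  A.charpoly.map (algebraMap F (AlgebraicClosure F)) =
    (Polynomial.X - Polynomial.C a) * (Polynomial.X - Polynomial.C b)

/-- The ratio of the eigenvalues of `A` and the ratio of the eigenvalues of `B` are multiplicatively
independent. -/
def IndependentRatios (A B : Matrix (Fin 2) (Fin 2) F) : Prop :=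
  ∀ a₁ a₂ b₁ b₂ : AlgebraicClosure F, Eigenvalues A a₁ a₂ → Eigenvalues B b₁ b₂ →
    ∀ k l : ℤ, (a₁ / a₂) ^ k * (b₁ / b₂) ^ l = 1 → k = 0 ∧ l = 0

/-- There is `N > 0` such that for all `g` the ratio of the eigenvalues of `ρ(g)` is an `N`-th root of
one. -/
def FiniteRatios (ρ : AbsGal K →* GL (Fin 2) F) : Prop :=
  ∃ N : ℕ, 0 < N ∧ ∀ g, ∀ b₁ b₂ : AlgebraicClosure F, Eigenvalues (mat ρ g) b₁ b₂ → b₁ ^ N = b₂ ^ N

end

section aux

variable {F : Type} [Field F]

theorem eigenvalues_iff {A : Matrix (Fin 2) (Fin 2) F} {a b : AlgebraicClosure F} :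
    Eigenvalues A a b ↔ algebraMap F (AlgebraicClosure F) A.trace = a + b ∧
      algebraMap F (AlgebraicClosure F) A.det = a * b := by
  constructor
  · exact fun h => Pool.Agent.H86.FM.Dep.of_charpoly h
  · rintro ⟨h1, h2⟩
    unfold Eigenvalues
    rw [Matrix.charpoly_fin_two]
    simp only [Polynomial.map_add, Polynomial.map_sub, Polynomial.map_mul, Polynomial.map_pow,
      Polynomial.map_X, Polynomial.map_C, h1, h2, Polynomial.C_add, Polynomial.C_mul]
    ring

theorem exists_eigenvalues (A : Matrix (Fin 2) (Fin 2) F) :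
    ∃ a b : AlgebraicClosure F, Eigenvalues A a b := by
  obtain ⟨a, ha⟩ := IsAlgClosed.exists_root (k := AlgebraicClosure F)
    (A.charpoly.map (algebraMap F (AlgebraicClosure F))) (by
      rw [Polynomial.degree_map, Matrix.charpoly_degree_eq_dim, Fintype.card_fin]
      norm_num)
  refine ⟨a, algebraMap F (AlgebraicClosure F) A.trace - a, eigenvalues_iff.2 ⟨by ring, ?_⟩⟩
  rw [Matrix.charpoly_fin_two] at ha
  simp only [Polynomial.map_add, Polynomial.map_sub, Polynomial.map_mul, Polynomial.map_pow,
    Polynomial.map_X, Polynomial.map_C, Polynomial.IsRoot.def, Polynomial.eval_add,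
    Polynomial.eval_sub, Polynomial.eval_pow, Polynomial.eval_X, Polynomial.eval_mul,
    Polynomial.eval_C] at ha
  linear_combination ha

theorem eigenvalues_ne {M : GL (Fin 2) F} {a b : AlgebraicClosure F}
    (h : Eigenvalues (M : Matrix (Fin 2) (Fin 2) F) a b) : a ≠ 0 ∧ b ≠ 0 := by
  obtain ⟨-, h2⟩ := eigenvalues_iff.1 h
  have h3 : (M : Matrix (Fin 2) (Fin 2) F).det ≠ 0 := by
    have := (Matrix.isUnit_iff_isUnit_det _).1 M.isUnit
    exact this.ne_zero
  have h4 : a * b ≠ 0 := by
    rw [← h2]
    exact (map_ne_zero_iff _ (algebraMap F (AlgebraicClosure F)).injective).2 h3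
  exact ⟨left_ne_zero_of_mul h4, right_ne_zero_of_mul h4⟩

theorem nat_form {Ω : Type*} [Field Ω] {a₁ a₂ b₁ b₂ : Ω} (ha₁ : a₁ ≠ 0) (ha₂ : a₂ ≠ 0) (hb₁ : b₁ ≠ 0)
    (hb₂ : b₂ ≠ 0) {k l : ℤ} (h : (a₁ / a₂) ^ k * (b₁ / b₂) ^ l = 1) (hkl : ¬ (k = 0 ∧ l = 0)) :
    ∃ k' l' : ℕ, (k' ≠ 0 ∨ l' ≠ 0) ∧ (a₁ ^ k' * b₂ ^ l' = b₁ ^ l' * a₂ ^ k' ∨
      a₁ ^ k' * b₁ ^ l' = b₂ ^ l' * a₂ ^ k') := by
  refine ⟨k.natAbs, l.natAbs, by omega, ?_⟩
  rcases Int.natAbs_eq k with hk | hk <;> rcases Int.natAbs_eq l with hl | hl
  · right
    rw [hk, hl, zpow_natCast, zpow_natCast, div_pow, div_pow] at h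
    field_simp at h
    linear_combination h
  · left
    rw [hk, hl, zpow_natCast, _root_.zpow_neg, zpow_natCast, div_pow, div_pow] at h
    field_simp at h
    linear_combination h
  · left
    rw [hk, hl, zpow_natCast, _root_.zpow_neg, zpow_natCast, div_pow, div_pow] at h
    field_simp at h
    linear_combination -h
  · right
    rw [hk, hl, _root_.zpow_neg, _root_.zpow_neg, zpow_natCast, zpow_natCast, div_pow, div_pow] at h
    field_simp at h
    linear_combination -h

/-- there is a Frobenius element at each finite place -/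
theorem exists_frobenius {K : Type} [Field K] [NumberField K] (v : HeightOneSpectrum (𝓞 K)) :
    ∃ g, IsFrobenius v g := by
  have hint : Algebra.IsIntegral (𝓞 K) (𝓞 (AlgebraicClosure K)) := by
    constructor
    intro x
    have h := RingOfIntegers.isIntegral x
    exact h.tower_top
  have hv : v.asIdeal.IsMaximal := v.isMaximal
  obtain ⟨Q, hQ, hQ'⟩ := Ideal.exists_ideal_over_maximal_of_isIntegral
    (R := 𝓞 K) (S := 𝓞 (AlgebraicClosure K)) v.asIdeal (by
      rw [(RingHom.injective_iff_ker_eq_bot _).mp
        (FaithfulSMul.algebraMap_injective (𝓞 K) (𝓞 (AlgebraicClosure K)))]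
      exact bot_le)
  obtain ⟨σ, hσ⟩ := Pool.Agent.W352.ChAbs.exists_frob v Q hQ'
  exact ⟨σ, Q, hQ, hQ', hσ⟩

/-- the ratios of a representation and of a twist are dependent -/
theorem not_independent_of_twist {K : Type} [Field K] [TopologicalSpace F]
    {V W : AbsGal K →* GL (Fin 2) F} (h : IsTwist V W) (g : AbsGal K) :
    ¬ IndependentRatios (mat V g) (mat W g) := by
  obtain ⟨χ, -, M, hM⟩ := h
  intro hind
  obtain ⟨b₁, b₂, hb⟩ := exists_eigenvalues (mat W g)
  obtain ⟨hb₁, hb₂⟩ := eigenvalues_ne (M := W g) hb
  obtain ⟨e1, e2⟩ := eigenvalues_iff.1 hb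
  set c : AlgebraicClosure F := algebraMap F (AlgebraicClosure F) (χ g : F) with hc
  have hc0 : c ≠ 0 := (map_ne_zero_iff _ (algebraMap F (AlgebraicClosure F)).injective).2
    (χ g).ne_zero
  have hconj : ((M * W g * M⁻¹ : GL (Fin 2) F) : Matrix (Fin 2) (Fin 2) F) =
      (M : Matrix (Fin 2) (Fin 2) F) * mat W g * ((M⁻¹ : GL (Fin 2) F) : Matrix (Fin 2) (Fin 2) F) := rfl
  have hMi : ((M⁻¹ : GL (Fin 2) F) : Matrix (Fin 2) (Fin 2) F) * (M : Matrix (Fin 2) (Fin 2) F) = 1 := by
    rw [← Units.val_mul, inv_mul_cancel, Units.val_one]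
  have ht : (mat V g).trace = (χ g : F) * (mat W g).trace := by
    rw [hM, hconj, Matrix.trace_smul, Matrix.trace_mul_comm, ← mul_assoc, hMi, one_mul, smul_eq_mul]
  have hd : (mat V g).det = (χ g : F) ^ 2 * (mat W g).det := by
    rw [hM, hconj, Matrix.det_smul, Matrix.det_mul, Matrix.det_mul, Fintype.card_fin]
    have := congrArg Matrix.det hMi
    rw [Matrix.det_mul, Matrix.det_one] at this
    linear_combination (χ g : F) ^ 2 * (mat W g).det * this
  have ha : Eigenvalues (mat V g) (c * b₁) (c * b₂) := by
    rw [eigenvalues_iff, ht, hd, map_mul, map_mul, map_pow, e1, e2, ← hc]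
    constructor <;> ring
  have h1 := (hind _ _ _ _ ha hb 1 (-1) (by
    rw [zpow_one, _root_.zpow_neg, zpow_one]
    field_simp)).1
  exact one_ne_zero h1

theorem not_independent_of_finite {K : Type} [Field K] {V W : AbsGal K →* GL (Fin 2) F}
    (h : FiniteRatios W) (g : AbsGal K) : ¬ IndependentRatios (mat V g) (mat W g) := by
  obtain ⟨N, hN, h⟩ := h
  intro hind
  obtain ⟨a₁, a₂, ha⟩ := exists_eigenvalues (mat V g)
  obtain ⟨b₁, b₂, hb⟩ := exists_eigenvalues (mat W g)
  obtain ⟨hb₁, hb₂⟩ := eigenvalues_ne (M := W g) hb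
  have h1 := (hind _ _ _ _ ha hb 0 N (by
    rw [zpow_zero, one_mul, zpow_natCast, div_pow, h g b₁ b₂ hb, div_self (pow_ne_zero _ hb₂)])).2
  omega

end aux

/-- **Multiplicatively dependent ratios of Frobenius eigenvalues.**

Let `K` be a number field, `p` a prime number and `F` a finite extension of `ℚ_p` with the absolute
value which extends the `p`-adic one. Let `V` and `W` be continuous representations of the absolute
Galois group of `K` in `GL_2(F)` and let `V` be strongly irreducible. The set of the finite places `v`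
of `K` such that for all Frobenius elements `g` at `v` the ratio of the eigenvalues of `V(g)` and the
ratio of the eigenvalues of `W(g)` are multiplicatively independent has positive lower density if and
only if `V` is not a twist of `W` by a continuous character and the ratios of the eigenvalues of the
elements `W(g)` are not all roots of one of bounded order. -/
theorem result {K : Type} [Field K] [NumberField K] (p : ℕ) [Fact p.Prime] {F : Type}
    [NormedField F] [NormedAlgebra ℚ_[p] F] [FiniteDimensional ℚ_[p] F]
    (V W : AbsGal K →* GL (Fin 2) F) (hV : Continuous V) (hW : Continuous W)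
    (hirr : StronglyIrreducible V) :
    PositiveLowerDensity {v : HeightOneSpectrum (𝓞 K) | ∀ g, IsFrobenius v g →
        IndependentRatios (mat V g) (mat W g)} ↔
      ¬ IsTwist V W ∧ ¬ FiniteRatios W := by
  constructor
  · -- the easy direction
    rintro ⟨δ, hδ, h⟩
    have hex : ∃ v : HeightOneSpectrum (𝓞 K), ∀ g, IsFrobenius v g →
        IndependentRatios (mat V g) (mat W g) := by
      by_contra hcon
      push Not at hcon
      obtain ⟨x, h1, h2⟩ := (h.and (Nat.tendsto_primeCounting.eventually_gt_atTop 0)).exists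
      have h3 : ({v ∈ {v : HeightOneSpectrum (𝓞 K) | ∀ g, IsFrobenius v g →
          IndependentRatios (mat V g) (mat W g)} | Ideal.absNorm v.asIdeal ≤ x}) = ∅ := by
        rw [Set.eq_empty_iff_forall_notMem]
        rintro v ⟨hv, -⟩
        obtain ⟨g, hg, hng⟩ := hcon v
        exact hng (hv g hg)
      rw [h3, Set.ncard_empty, Nat.cast_zero] at h1
      have h4 : (0 : ℝ) < Nat.primeCounting x := by exact_mod_cast h2
      have h5 := mul_pos hδ h4
      linarith
    obtain ⟨v, hv⟩ := hex
    obtain ⟨g, hg⟩ := exists_frobenius v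
    exact ⟨fun ht => not_independent_of_twist ht g (hv g hg),
      fun hf => not_independent_of_finite hf g (hv g hg)⟩
  · rintro ⟨hnt, hnf⟩
    by_contra hcon
    apply hnt
    obtain ⟨T, hT⟩ := Pool.Agent.H86.FM.Mn.main p ((Units.coeHom _).comp V)
      ((Units.coeHom _).comp W) (Units.continuous_val.comp hV) (Units.continuous_val.comp hW)
      (fun H hH => hirr H hH) (by
        intro N hN
        by_contra hno
        push Not at hno
        apply hnf
        refine ⟨N, hN, fun g b₁ b₂ hb => ?_⟩
        obtain ⟨e1, e2⟩ := eigenvalues_iff.1 hb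
        have h1 := hno g
        have h2 := Pool.Agent.H86.FM.Dep.D_pow (A := (mat W g).map
          (algebraMap F (AlgebraicClosure F))) (a₁ := b₁) (a₂ := b₂) (by
            rw [← e1, Matrix.trace_fin_two, Matrix.trace_fin_two]
            simp) (by
            rw [← e2, Matrix.det_fin_two, Matrix.det_fin_two]
            simp) N
        have h3 : ((mat W g).map (algebraMap F (AlgebraicClosure F))) ^ N =
            ((mat W g) ^ N).map (algebraMap F (AlgebraicClosure F)) :=
          (map_pow (algebraMap F (AlgebraicClosure F)).mapMatrix (mat W g) N).symm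
        rw [h3, Pool.Agent.H86.FM.Dep.map_D] at h2
        have h4 : Pool.Agent.H86.FM.Alg.D ((mat W g) ^ N) = 0 := h1
        rw [h4, map_zero] at h2
        exact sub_eq_zero.1 ((pow_eq_zero_iff two_ne_zero).1 h2.symm))
      {v : HeightOneSpectrum (𝓞 K) | ∃ g, IsFrobenius v g ∧
        ¬ IndependentRatios (mat V g) (mat W g)} (by
      intro ε hε
      have h1 : ¬ ∀ᶠ x : ℕ in atTop, ε * Nat.primeCounting x ≤
          (({v ∈ {v : HeightOneSpectrum (𝓞 K) | ∀ g, IsFrobenius v g →
            IndependentRatios (mat V g) (mat W g)} |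
            Ideal.absNorm v.asIdeal ≤ x}).ncard : ℝ) := fun h => hcon ⟨ε, hε, h⟩
      have h2 := (Filter.not_eventually.1 h1)
      refine (h2.and_eventually
        (Nat.tendsto_primeCounting.eventually_gt_atTop 0)).mono ?_
      rintro x ⟨h3, h4⟩
      have h5 : (0 : ℝ) < (Nat.primeCounting x : ℝ) := by exact_mod_cast h4
      unfold Pool.Agent.W401.Cheb.dens
      rw [div_le_iff₀ h5]
      push Not at h3
      refine le_trans (le_of_eq ?_) h3.le
      have h6 : {v : HeightOneSpectrum (𝓞 K) | Ideal.absNorm v.asIdeal ≤ x ∧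
          v ∉ {v : HeightOneSpectrum (𝓞 K) | ∃ g, IsFrobenius v g ∧
            ¬ IndependentRatios (mat V g) (mat W g)}} =
          {v ∈ {v : HeightOneSpectrum (𝓞 K) | ∀ g, IsFrobenius v g →
            IndependentRatios (mat V g) (mat W g)} | Ideal.absNorm v.asIdeal ≤ x} := by
        ext v
        constructor
        · rintro ⟨ha, hb⟩
          refine ⟨fun g hg => ?_, ha⟩
          by_contra hc
          exact hb ⟨g, hg, hc⟩
        · rintro ⟨ha, hb⟩
          refine ⟨hb, ?_⟩
          rintro ⟨g, hg, hc⟩
          exact hc (ha g hg)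
      rw [← h6]
      rfl) (by
      rintro v ⟨g, hg, hng⟩
      refine ⟨g, hg, ?_⟩
      unfold IndependentRatios at hng
      push Not at hng
      obtain ⟨a₁, a₂, b₁, b₂, ha, hb, k, l, hkl, hne⟩ := hng
      obtain ⟨ha₁, ha₂⟩ := eigenvalues_ne (M := V g) ha
      obtain ⟨hb₁, hb₂⟩ := eigenvalues_ne (M := W g) hb
      obtain ⟨k', l', hk', h⟩ := nat_form ha₁ ha₂ hb₁ hb₂ hkl (fun h => hne h.1 h.2)
      refine ⟨k', l', hk', fun j => ?_⟩
      rcases h with h | h
      · exact Pool.Agent.H86.FM.Dep.key ha hb h j
      · exact Pool.Agent.H86.FM.Dep.key ha (hb.trans (mul_comm _ _)) h j)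
    -- the character
    have hTu : ∀ g, ∃ c : F, mat V g =
        c • (((T⁻¹ : (Matrix (Fin 2) (Fin 2) F)ˣ) : Matrix (Fin 2) (Fin 2) F) * mat W g * T) := hT
    choose c hc using hTu
    have hWc : Continuous fun g : AbsGal K => mat W g⁻¹ :=
      Units.continuous_val.comp (hW.comp continuous_inv)
    have hVc : Continuous fun g : AbsGal K => mat V g := Units.continuous_val.comp hV
    have hinv : ∀ g, mat W g * mat W g⁻¹ = 1 := by
      intro g
      unfold mat
      rw [← Units.val_mul, ← map_mul, mul_inv_cancel, map_one, Units.val_one]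
    have hform : ∀ g, mat V g * (((T⁻¹ : (Matrix (Fin 2) (Fin 2) F)ˣ) : Matrix (Fin 2) (Fin 2) F) *
        mat W g⁻¹ * T) = c g • 1 := by
      intro g
      rw [hc g, smul_mul_assoc]
      congr 1
      calc _ = ((T⁻¹ : (Matrix (Fin 2) (Fin 2) F)ˣ) : Matrix (Fin 2) (Fin 2) F) * mat W g *
            ((T : Matrix (Fin 2) (Fin 2) F) *
              ((T⁻¹ : (Matrix (Fin 2) (Fin 2) F)ˣ) : Matrix (Fin 2) (Fin 2) F)) * mat W g⁻¹ * T := by
            simp only [mul_assoc]
        _ = ((T⁻¹ : (Matrix (Fin 2) (Fin 2) F)ˣ) : Matrix (Fin 2) (Fin 2) F) *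
            (mat W g * mat W g⁻¹) * T := by
            rw [T.mul_inv, mul_one]
            simp only [mul_assoc]
        _ = 1 := by rw [hinv, mul_one, T.inv_mul]
    have hcval : ∀ g, c g = (mat V g * (((T⁻¹ : (Matrix (Fin 2) (Fin 2) F)ˣ) :
        Matrix (Fin 2) (Fin 2) F) * mat W g⁻¹ * T)) 0 0 := by
      intro g
      rw [hform g]
      simp
    have hccont : Continuous c := by
      have h1 : Continuous fun g => mat V g * (((T⁻¹ : (Matrix (Fin 2) (Fin 2) F)ˣ) :
          Matrix (Fin 2) (Fin 2) F) * mat W g⁻¹ * T) :=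
        hVc.mul ((continuous_const.mul hWc).mul continuous_const)
      exact (h1.matrix_elem 0 0).congr fun g => (hcval g).symm
    have hc1 : c 1 = 1 := by
      have h1 := hform 1
      have h2 : mat V 1 = 1 := by
        unfold mat
        rw [map_one, Units.val_one]
      have h3 : mat W (1 : AbsGal K)⁻¹ = 1 := by
        unfold mat
        rw [inv_one, map_one, Units.val_one]
      rw [h2, h3, mul_one, T.inv_mul, mul_one] at h1
      have := congrFun (congrFun h1 0) 0
      simpa using this.symm
    have hcmul : ∀ g h, c (g * h) = c g * c h := by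
      intro g h
      have e1 : mat V (g * h) = mat V g * mat V h := by
        unfold mat
        rw [map_mul, Units.val_mul]
      have e2 : mat W (g * h)⁻¹ = mat W h⁻¹ * mat W g⁻¹ := by
        unfold mat
        rw [_root_.mul_inv_rev, map_mul, Units.val_mul]
      have h1 := hform (g * h)
      rw [e1, e2] at h1
      have h2 : mat V g * mat V h * (((T⁻¹ : (Matrix (Fin 2) (Fin 2) F)ˣ) :
          Matrix (Fin 2) (Fin 2) F) * (mat W h⁻¹ * mat W g⁻¹) * T) = (c g * c h) • 1 := by
        calc _ = mat V g * (mat V h * (((T⁻¹ : (Matrix (Fin 2) (Fin 2) F)ˣ) :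
              Matrix (Fin 2) (Fin 2) F) * mat W h⁻¹ * ((T : Matrix (Fin 2) (Fin 2) F) *
              ((T⁻¹ : (Matrix (Fin 2) (Fin 2) F)ˣ) : Matrix (Fin 2) (Fin 2) F)) *
              mat W g⁻¹ * T)) := by
              rw [T.mul_inv, mul_one]
              simp only [mul_assoc]
          _ = mat V g * ((mat V h * (((T⁻¹ : (Matrix (Fin 2) (Fin 2) F)ˣ) :
              Matrix (Fin 2) (Fin 2) F) * mat W h⁻¹ * T)) *
              (((T⁻¹ : (Matrix (Fin 2) (Fin 2) F)ˣ) : Matrix (Fin 2) (Fin 2) F) *
              mat W g⁻¹ * T)) := by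
              simp only [mul_assoc]
          _ = c h • (mat V g * (((T⁻¹ : (Matrix (Fin 2) (Fin 2) F)ˣ) :
              Matrix (Fin 2) (Fin 2) F) * mat W g⁻¹ * T)) := by
              rw [hform h, smul_mul_assoc, one_mul, mul_smul_comm]
          _ = _ := by rw [hform g, smul_smul, mul_comm]
      rw [h2] at h1
      have := congrFun (congrFun h1 0) 0
      simpa using this.symm
    let χ₀ : AbsGal K →* F :=
      { toFun := c
        map_one' := hc1
        map_mul' := hcmul }
    let χ : AbsGal K →* Fˣ := χ₀.toHomUnits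
    have hχ : ∀ g, (χ g : F) = c g := fun g => rfl
    refine ⟨χ, ?_, T⁻¹, fun g => ?_⟩
    · rw [Units.continuous_iff]
      refine ⟨hccont, ?_⟩
      have h1 : (fun g => ((χ g)⁻¹ : Fˣ).val) = fun g => c g⁻¹ := by
        ext g
        rw [← map_inv]
        rfl
      change Continuous fun g => ((χ g)⁻¹ : Fˣ).val
      rw [h1]
      exact hccont.comp continuous_inv
    · rw [hχ, hc g, inv_inv]
      rfl

end Pool.Agent.Results.MP_b583a4_nt.MultiplicativeDependence
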