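import Pool.Agent.H86.FM.OneMn

/-!
# Two-dimensional representations with one dependent Frobenius eigenvalue

Let `K` be a number field (for the conjecture `K = ℚ`), `F` a finite extension of `ℚ_p` and
`V`, `W : G_K → GL_2(F)` continuous representations which are strongly irreducible: absolutely
irreducible on every open subgroup. (By Burnside's theorem this means that the matrices `V(h)`,
`h ∈ H`, span `M_2(F)` for every open subgroup `H`. An absolutely irreducible `V` is strongly
irreducible if and only if it is not dihedral and its projective image is infinite.)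

Theorem. The following are equivalent.

(a) The finite places `v` of `K` such that for every Frobenius element `g` at `v` each eigenvalue of
`V(g)` and each eigenvalue of `W(g)` are multiplicatively independent, have positive lower density.

(b) There is no finite extension of `K` over which `V` becomes isomorphic to `W` or to the dual
representation of `W`.

So if for all `v` outside a set of lower density zero *some* eigenvalue `α_v` of `V(Frob_v)` and *some*
eigenvalue `β_v` of `W(Frob_v)` are multiplicatively dependent, `α_v ^ {k_v} = β_v ^ {l_v}` with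
integers `k_v`, `l_v`, not both zero, which may depend on `v` and are not bounded, then `V` and `W`
or `V` and the dual of `W` become isomorphic over a finite extension of `K` (and since they are
strongly irreducible, `V` is the twist of `W` or of its dual by a character of finite order). Nothing
is assumed on ramification, on the places above `p`, on weights, on determinants, or on algebraicity
of the eigenvalues; `p = 2` is allowed.

For the conjecture of Fontaine and Mazur: if `V` satisfies the assumptions of the conjecture, `W` is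
the representation of a newform without complex multiplication, and for almost all primes one
eigenvalue of the one and one eigenvalue of the other are multiplicatively dependent, then the
conjecture holds for `V`. (This paragraph is not part of the formal proof.)

Proof. (1) If `A = V(g)` and `B = W(g)` have dependent eigenvalues then `k log (A ^ N)` and
`l log (B ^ N)` have a common eigenvalue, with `k`, `l` in `ℤ_p` not both divisible by `p`. By
compactness of `ℤ_p` the set of all such `g` is closed; by the theorem of Chebotarev (from the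
library) it is `G_K` if the lower density is zero. So all `(X, Y)` in the Lie algebra `𝔤` of
`(V, W)(U)`, `U` small, have eigenvalues which are linearly dependent over `ℚ_p`. (2) If `X` and `Y`
have trace zero then the quotient of their discriminants is a square in `ℚ_p`. By the argument in the
file `MultiplicativeDependence` the trace zero part of `𝔤` is the graph of conjugation with some `T`. So
`T X T⁻¹ = Y + γ` for all `(X, Y)` in `𝔤`, with a scalar `γ`. (3) Let `γ ≠ 0` and `γ + tr Y ≠ 0`. The
elements `(X + t T⁻¹ Z T, Y + t Z)`, `t → ∞`, show that the discriminant of `Z` is a square of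
`ℚ_p γ` for all `Z = [Y, Z']`; this is impossible since not all sums of two squares in `ℚ_p` are
squares. So `tr X = tr Y` for all `(X, Y)`, or `tr X = - tr Y` for all `(X, Y)`. (4) The logarithm is
injective near `1`.
-/

set_option autoImplicit false

namespace Pool.Agent.Results.MP_b583a4_nt.OneEigenvalue

open NumberField IsDedekindDomain Filter Matrix

/-- the absolute Galois group of the field `K`, with the Krull topology -/
abbrev AbsGal (K : Type) [Field K] : Type := Gal(AlgebraicClosure K/K)

/-- `g` is an (arithmetic) Frobenius element at a maximal ideal `Q` of the ring of all algebraic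
integers which lies above the finite place `v` of `K`. -/
def IsFrobenius {K : Type} [Field K] [NumberField K] (v : HeightOneSpectrum (𝓞 K))
    (g : AbsGal K) : Prop :=
  ∃ Q : Ideal (𝓞 (AlgebraicClosure K)), Q.IsMaximal ∧
    Q.comap (algebraMap (𝓞 K) (𝓞 (AlgebraicClosure K))) = v.asIdeal ∧
    ∀ x : 𝓞 (AlgebraicClosure K), g • x - x ^ Ideal.absNorm v.asIdeal ∈ Q

/-- The set `P` of finite places of `K` has positive lower density: for some `δ > 0` and all large
`x` it contains at least `δ π(x)` places of norm at most `x`. -/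
def PositiveLowerDensity {K : Type} [Field K] [NumberField K]
    (P : Set (HeightOneSpectrum (𝓞 K))) : Prop :=
  ∃ δ : ℝ, 0 < δ ∧ ∀ᶠ x : ℕ in atTop,
    δ * Nat.primeCounting x ≤ ({v ∈ P | Ideal.absNorm v.asIdeal ≤ x}.ncard : ℝ)

section
variable {K F : Type} [Field K] [Field F]

/-- the matrix of `g` -/
noncomputable def mat (ρ : AbsGal K →* GL (Fin 2) F) (g : AbsGal K) : Matrix (Fin 2) (Fin 2) F :=
  (ρ g : GL (Fin 2) F)

/-- `ρ` is absolutely irreducible on every open subgroup `H`: the matrices `ρ(h)`, `h ∈ H`, span the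
space of all two by two matrices. -/
def StronglyIrreducible (ρ : AbsGal K →* GL (Fin 2) F) : Prop :=
  ∀ H : Subgroup (AbsGal K), IsOpen (H : Set (AbsGal K)) →
    Submodule.span F (mat ρ '' (H : Set (AbsGal K))) = ⊤

/-- `a`, `b` are the eigenvalues of the matrix `A`, with multiplicities. -/
def Eigenvalues (A : Matrix (Fin 2) (Fin 2) F) (a b : AlgebraicClosure F) : Prop :=
  A.charpoly.map (algebraMap F (AlgebraicClosure F)) =
    (Polynomial.X - Polynomial.C a) * (Polynomial.X - Polynomial.C b)

/-- Each eigenvalue of `A` and each eigenvalue of `B` are multiplicatively independent. -/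
def IndependentEigenvalues (A B : Matrix (Fin 2) (Fin 2) F) : Prop :=
  ∀ a₁ a₂ b₁ b₂ : AlgebraicClosure F, Eigenvalues A a₁ a₂ → Eigenvalues B b₁ b₂ →
    ∀ k l : ℤ, a₁ ^ k * b₁ ^ l = 1 → k = 0 ∧ l = 0

/-- `V` and `W` are isomorphic on an open subgroup, that is, over a finite extension of `K`. -/
def PotentiallyIsomorphic (V W : AbsGal K →* GL (Fin 2) F) : Prop :=
  ∃ H : Subgroup (AbsGal K), IsOpen (H : Set (AbsGal K)) ∧ ∃ M : GL (Fin 2) F, ∀ h ∈ H,
    V h = M * W h * M⁻¹

/-- the dual representation, with the matrices `(W(g)⁻¹)ᵀ` -/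
noncomputable def dual (W : AbsGal K →* GL (Fin 2) F) : AbsGal K →* GL (Fin 2) F where
  toFun g := ⟨(mat W g⁻¹)ᵀ, (mat W g)ᵀ, by
    unfold mat
    rw [← Matrix.transpose_mul, ← Units.val_mul, ← map_mul, mul_inv_cancel, map_one, Units.val_one,
      Matrix.transpose_one], by
    unfold mat
    rw [← Matrix.transpose_mul, ← Units.val_mul, ← map_mul, inv_mul_cancel, map_one, Units.val_one,
      Matrix.transpose_one]⟩
  map_one' := by
    apply Units.ext
    simp [mat]
  map_mul' g h := by
    apply Units.ext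
    simp [mat, Matrix.transpose_mul]

end

section aux

variable {F : Type} [Field F]

theorem eigenvalues_iff {A : Matrix (Fin 2) (Fin 2) F} {a b : AlgebraicClosure F} :
    Eigenvalues A a b ↔ algebraMap F (AlgebraicClosure F) A.trace = a + b ∧
      algebraMap F (AlgebraicClosure F) A.det = a * b := by
  constructor
  · exact fun h => Pool.Agent.H86.FM.Dep.of_charpoly h
  · rintro ⟨h1, h2⟩
    unfold Eigenvalues
    rw [Matrix.charpoly_fin_two]
    simp only [Polynomial.map_add, Polynomial.map_sub, Polynomial.map_mul, Polynomial.map_pow,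
      Polynomial.map_X, Polynomial.map_C, h1, h2, Polynomial.C_add, Polynomial.C_mul]
    ring

theorem exists_eigenvalues (A : Matrix (Fin 2) (Fin 2) F) :
    ∃ a b : AlgebraicClosure F, Eigenvalues A a b := by
  obtain ⟨a, ha⟩ := IsAlgClosed.exists_root (k := AlgebraicClosure F)
    (A.charpoly.map (algebraMap F (AlgebraicClosure F))) (by
      rw [Polynomial.degree_map, Matrix.charpoly_degree_eq_dim, Fintype.card_fin]
      norm_num)
  refine ⟨a, algebraMap F (AlgebraicClosure F) A.trace - a, eigenvalues_iff.2 ⟨by ring, ?_⟩⟩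
  rw [Matrix.charpoly_fin_two] at ha
  simp only [Polynomial.map_add, Polynomial.map_sub, Polynomial.map_mul, Polynomial.map_pow,
    Polynomial.map_X, Polynomial.map_C, Polynomial.IsRoot.def, Polynomial.eval_add,
    Polynomial.eval_sub, Polynomial.eval_pow, Polynomial.eval_X, Polynomial.eval_mul,
    Polynomial.eval_C] at ha
  linear_combination ha

theorem eigenvalues_ne {M : GL (Fin 2) F} {a b : AlgebraicClosure F}
    (h : Eigenvalues (M : Matrix (Fin 2) (Fin 2) F) a b) : a ≠ 0 ∧ b ≠ 0 := by
  obtain ⟨-, h2⟩ := eigenvalues_iff.1 h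
  have h3 : (M : Matrix (Fin 2) (Fin 2) F).det ≠ 0 := by
    have := (Matrix.isUnit_iff_isUnit_det _).1 M.isUnit
    exact this.ne_zero
  have h4 : a * b ≠ 0 := by
    rw [← h2]
    exact (map_ne_zero_iff _ (algebraMap F (AlgebraicClosure F)).injective).2 h3
  exact ⟨left_ne_zero_of_mul h4, right_ne_zero_of_mul h4⟩

theorem int_form {Ω : Type*} [Field Ω] {a b : Ω} (ha : a ≠ 0) (hb : b ≠ 0) {k l : ℤ}
    (h : a ^ k * b ^ l = 1) (hkl : ¬ (k = 0 ∧ l = 0)) :
    ∃ k' l' : ℕ, (k' ≠ 0 ∨ l' ≠ 0) ∧ (a ^ k' = b ^ l' ∨ a ^ k' = (b⁻¹) ^ l') := by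
  refine ⟨k.natAbs, l.natAbs, by omega, ?_⟩
  rcases Int.natAbs_eq k with hk | hk <;> rcases Int.natAbs_eq l with hl | hl
  · right
    rw [hk, hl, zpow_natCast, zpow_natCast] at h
    rw [_root_.inv_pow]
    exact eq_inv_of_mul_eq_one_left h
  · left
    rw [hk, hl, zpow_natCast, _root_.zpow_neg, zpow_natCast] at h
    exact eq_of_mul_inv_eq_one h
  · left
    rw [hk, hl, zpow_natCast, _root_.zpow_neg, zpow_natCast] at h
    exact (eq_of_inv_mul_eq_one h)
  · right
    rw [hk, hl, _root_.zpow_neg, _root_.zpow_neg, zpow_natCast, zpow_natCast, ← _root_.mul_inv] at h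
    rw [_root_.inv_pow]
    exact eq_inv_of_mul_eq_one_left (inv_eq_one.1 h)

theorem trace_inv {A C : Matrix (Fin 2) (Fin 2) F} (h : A * C = 1) :
    C.trace * A.det = A.trace ∧ C.det * A.det = 1 := by
  constructor
  · have h1 : A.adjugate = A.det • C := by
      have h2 : A.adjugate * (A * C) = A.det • C := by
        rw [← mul_assoc, Matrix.adjugate_mul, smul_mul_assoc, one_mul]
      rw [← h2, h, mul_one]
    have h3 := congrArg Matrix.trace h1
    have h4 : A.adjugate.trace = A.trace := by
      rw [Matrix.adjugate_fin_two, Matrix.trace_fin_two, Matrix.trace_fin_two]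
      simp [add_comm]
    rw [h4, Matrix.trace_smul, smul_eq_mul] at h3
    linear_combination -h3
  · have h1 := congrArg Matrix.det h
    rw [Matrix.det_mul, Matrix.det_one] at h1
    rw [mul_comm]
    exact h1

theorem eigenvalues_inv {A C : Matrix (Fin 2) (Fin 2) F} (h : A * C = 1)
    {b₁ b₂ : AlgebraicClosure F} (hb : Eigenvalues A b₁ b₂) : Eigenvalues C b₁⁻¹ b₂⁻¹ := by
  obtain ⟨h1, h2⟩ := eigenvalues_iff.1 hb
  obtain ⟨h3, h4⟩ := trace_inv h
  have h5 := congrArg (algebraMap F (AlgebraicClosure F)) h3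
  have h6 := congrArg (algebraMap F (AlgebraicClosure F)) h4
  rw [map_mul, h1, h2] at h5
  rw [map_mul, h2, map_one] at h6
  have h7 : b₁ * b₂ ≠ 0 := right_ne_zero_of_mul_eq_one h6
  have hb₁ : b₁ ≠ 0 := left_ne_zero_of_mul h7
  have hb₂ : b₂ ≠ 0 := right_ne_zero_of_mul h7
  rw [eigenvalues_iff]
  constructor
  · field_simp
    linear_combination h5
  · field_simp
    linear_combination h6

theorem eigenvalues_pow {A : Matrix (Fin 2) (Fin 2) F} {a₁ a₂ : AlgebraicClosure F}
    (h : Eigenvalues A a₁ a₂) (n : ℕ) : Eigenvalues (A ^ n) (a₁ ^ n) (a₂ ^ n) := by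
  obtain ⟨h1, h2⟩ := eigenvalues_iff.1 h
  have t : ∀ M : Matrix (Fin 2) (Fin 2) F, algebraMap F (AlgebraicClosure F) M.trace =
      (M.map (algebraMap F (AlgebraicClosure F))).trace := by
    intro M
    rw [Matrix.trace_fin_two, Matrix.trace_fin_two]
    simp
  have e : ∀ M : Matrix (Fin 2) (Fin 2) F, algebraMap F (AlgebraicClosure F) M.det =
      (M.map (algebraMap F (AlgebraicClosure F))).det := by
    intro M
    rw [Matrix.det_fin_two, Matrix.det_fin_two]
    simp
  have pw : (A ^ n).map (algebraMap F (AlgebraicClosure F)) =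
      (A.map (algebraMap F (AlgebraicClosure F))) ^ n :=
    map_pow (algebraMap F (AlgebraicClosure F)).mapMatrix A n
  rw [eigenvalues_iff]
  constructor
  · rw [t, pw]
    rw [t] at h1
    rw [e] at h2
    exact (Pool.Agent.H86.FM.Dep.trace_pow h1 h2 n).1
  · rw [Matrix.det_pow, map_pow, h2, mul_pow]

theorem eigenvalues_swap {A : Matrix (Fin 2) (Fin 2) F} {a₁ a₂ : AlgebraicClosure F}
    (h : Eigenvalues A a₁ a₂) : Eigenvalues A a₂ a₁ := h.trans (mul_comm _ _)

theorem Rs_zero {A C : Matrix (Fin 2) (Fin 2) F} {a₁ a₂ b₁ b₂ : AlgebraicClosure F}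
    (hA : Eigenvalues A a₁ a₂) (hC : Eigenvalues C b₁ b₂) (h : a₁ = b₁) :
    Pool.Agent.H86.FM.Rs.Rs A C = 0 := by
  obtain ⟨h1, h2⟩ := eigenvalues_iff.1 hA
  obtain ⟨h3, h4⟩ := eigenvalues_iff.1 hC
  apply (algebraMap F (AlgebraicClosure F)).injective
  unfold Pool.Agent.H86.FM.Rs.Rs
  simp only [map_add, map_mul, map_pow, map_sub, h1, h2, h3, h4, h, map_zero]
  ring

theorem Rs_pow {A C : Matrix (Fin 2) (Fin 2) F} {a₁ a₂ b₁ b₂ : AlgebraicClosure F}
    (hA : Eigenvalues A a₁ a₂) (hC : Eigenvalues C b₁ b₂) {k l : ℕ} (h : a₁ ^ k = b₁ ^ l) (j : ℕ) :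
    Pool.Agent.H86.FM.Rs.Rs (A ^ (k * j)) (C ^ (l * j)) = 0 := by
  refine Rs_zero (eigenvalues_pow hA (k * j)) (eigenvalues_pow hC (l * j)) ?_
  rw [pow_mul, pow_mul, h]

/-- matrices with the same trace and determinant have a common eigenvalue -/
theorem common {A C : Matrix (Fin 2) (Fin 2) F} (ht : A.trace = C.trace) (hd : A.det = C.det)
    {a₁ a₂ b₁ b₂ : AlgebraicClosure F} (hA : Eigenvalues A a₁ a₂) (hC : Eigenvalues C b₁ b₂) :
    a₁ = b₁ ∨ a₁ = b₂ := by
  obtain ⟨h1, h2⟩ := eigenvalues_iff.1 hA
  obtain ⟨h3, h4⟩ := eigenvalues_iff.1 hC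
  rw [ht, h3] at h1
  rw [hd, h4] at h2
  have h5 : (a₁ - b₁) * (a₁ - b₂) = 0 := by linear_combination (-a₁) * h1 + h2
  rcases mul_eq_zero.1 h5 with h | h
  · exact Or.inl (sub_eq_zero.1 h)
  · exact Or.inr (sub_eq_zero.1 h)

/-- there is a Frobenius element at each finite place -/
theorem exists_frobenius {K : Type} [Field K] [NumberField K] (v : HeightOneSpectrum (𝓞 K)) :
    ∃ g, IsFrobenius v g := by
  have hint : Algebra.IsIntegral (𝓞 K) (𝓞 (AlgebraicClosure K)) := by
    constructor
    intro x
    have h := RingOfIntegers.isIntegral x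
    exact h.tower_top
  have hv : v.asIdeal.IsMaximal := v.isMaximal
  obtain ⟨Q, hQ, hQ'⟩ := Ideal.exists_ideal_over_maximal_of_isIntegral
    (R := 𝓞 K) (S := 𝓞 (AlgebraicClosure K)) v.asIdeal (by
      rw [(RingHom.injective_iff_ker_eq_bot _).mp
        (FaithfulSMul.algebraMap_injective (𝓞 K) (𝓞 (AlgebraicClosure K)))]
      exact bot_le)
  obtain ⟨σ, hσ⟩ := Pool.Agent.W352.ChAbs.exists_frob v Q hQ'
  exact ⟨σ, Q, hQ, hQ', hσ⟩

theorem exists_pow {K : Type} [Field K] [NumberField K] (H : Subgroup (AbsGal K))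
    (hH : IsOpen (H : Set (AbsGal K))) (g : AbsGal K) : ∃ m : ℕ, 0 < m ∧ g ^ m ∈ H := by
  have hfin : Finite (AbsGal K ⧸ H) := Subgroup.quotient_finite_of_isOpen _ hH
  have h1 : H.index ≠ 0 := (Subgroup.finiteIndex_of_finite_quotient (H := H)).index_ne_zero
  obtain ⟨n, hn, -, hg⟩ := Subgroup.exists_pow_mem_of_index_ne_zero h1 g
  exact ⟨n, hn, hg⟩

theorem conj_trace_det {M : GL (Fin 2) F} {A C : Matrix (Fin 2) (Fin 2) F}
    (h : A = (M : Matrix (Fin 2) (Fin 2) F) * C * ((M⁻¹ : GL (Fin 2) F) : Matrix (Fin 2) (Fin 2) F)) :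
    A.trace = C.trace ∧ A.det = C.det := by
  have hMi : ((M⁻¹ : GL (Fin 2) F) : Matrix (Fin 2) (Fin 2) F) * (M : Matrix (Fin 2) (Fin 2) F) = 1 := by
    rw [← Units.val_mul, inv_mul_cancel, Units.val_one]
  constructor
  · rw [h, Matrix.trace_mul_comm, ← mul_assoc, hMi, one_mul]
  · rw [h, Matrix.det_mul, Matrix.det_mul]
    have := congrArg Matrix.det hMi
    rw [Matrix.det_mul, Matrix.det_one] at this
    linear_combination C.det * this

theorem mat_pow {K : Type} [Field K] (V : AbsGal K →* GL (Fin 2) F) (g : AbsGal K) (m : ℕ) :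
    mat V (g ^ m) = mat V g ^ m := by
  unfold mat
  rw [map_pow, Units.val_pow_eq_pow_val]

theorem mat_inv {K : Type} [Field K] (V : AbsGal K →* GL (Fin 2) F) (g : AbsGal K) :
    mat V g * mat V g⁻¹ = 1 := by
  unfold mat
  rw [← Units.val_mul, ← map_mul, mul_inv_cancel, map_one, Units.val_one]

theorem not_independent_of_isomorphic {K : Type} [Field K] [NumberField K]
    {V W : AbsGal K →* GL (Fin 2) F} (h : PotentiallyIsomorphic V W) (g : AbsGal K) :
    ¬ IndependentEigenvalues (mat V g) (mat W g) := by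
  obtain ⟨H, hH, M, hM⟩ := h
  obtain ⟨m, hm, hg⟩ := exists_pow H hH g
  intro hind
  obtain ⟨a₁, a₂, ha⟩ := exists_eigenvalues (mat V g)
  obtain ⟨b₁, b₂, hb⟩ := exists_eigenvalues (mat W g)
  obtain ⟨hb₁, hb₂⟩ := eigenvalues_ne (M := W g) hb
  have h1 : mat V g ^ m = (M : Matrix (Fin 2) (Fin 2) F) * (mat W g ^ m) *
      ((M⁻¹ : GL (Fin 2) F) : Matrix (Fin 2) (Fin 2) F) := by
    rw [← mat_pow, ← mat_pow]
    have := congrArg (fun N : GL (Fin 2) F => (N : Matrix (Fin 2) (Fin 2) F)) (hM _ hg)
    exact this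
  obtain ⟨ht, hd⟩ := conj_trace_det h1
  have hm0 : (m : ℤ) ≠ 0 := by exact_mod_cast hm.ne'
  rcases common ht hd (eigenvalues_pow ha m) (eigenvalues_pow hb m) with h2 | h2
  · refine hm0 (hind _ _ _ _ ha hb m (-m) ?_).1
    rw [_root_.zpow_neg, zpow_natCast, zpow_natCast, h2, mul_inv_cancel₀ (pow_ne_zero _ hb₁)]
  · refine hm0 (hind _ _ _ _ ha (eigenvalues_swap hb) m (-m) ?_).1
    rw [_root_.zpow_neg, zpow_natCast, zpow_natCast, h2, mul_inv_cancel₀ (pow_ne_zero _ hb₂)]

theorem not_independent_of_dual {K : Type} [Field K] [NumberField K]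
    {V W : AbsGal K →* GL (Fin 2) F} (h : PotentiallyIsomorphic V (dual W)) (g : AbsGal K) :
    ¬ IndependentEigenvalues (mat V g) (mat W g) := by
  obtain ⟨H, hH, M, hM⟩ := h
  obtain ⟨m, hm, hg⟩ := exists_pow H hH g
  intro hind
  obtain ⟨a₁, a₂, ha⟩ := exists_eigenvalues (mat V g)
  obtain ⟨b₁, b₂, hb⟩ := exists_eigenvalues (mat W g)
  obtain ⟨hb₁, hb₂⟩ := eigenvalues_ne (M := W g) hb
  have h1 : mat V g ^ m = (M : Matrix (Fin 2) (Fin 2) F) * (mat W g⁻¹ ^ m)ᵀ *
      ((M⁻¹ : GL (Fin 2) F) : Matrix (Fin 2) (Fin 2) F) := by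
    rw [← mat_pow, ← mat_pow, inv_pow]
    have := congrArg (fun N : GL (Fin 2) F => (N : Matrix (Fin 2) (Fin 2) F)) (hM _ hg)
    exact this
  obtain ⟨ht, hd⟩ := conj_trace_det h1
  rw [Matrix.trace_transpose] at ht
  rw [Matrix.det_transpose] at hd
  have hm0 : (m : ℤ) ≠ 0 := by exact_mod_cast hm.ne'
  rcases common ht hd (eigenvalues_pow ha m)
    (eigenvalues_pow (eigenvalues_inv (mat_inv W g) hb) m) with h2 | h2
  · refine hm0 (hind _ _ _ _ ha hb m m ?_).1
    rw [zpow_natCast, zpow_natCast, h2, ← mul_pow, inv_mul_cancel₀ hb₁, one_pow]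
  · refine hm0 (hind _ _ _ _ ha (eigenvalues_swap hb) m m ?_).1
    rw [zpow_natCast, zpow_natCast, h2, ← mul_pow, inv_mul_cancel₀ hb₂, one_pow]

end aux

/-- **One dependent Frobenius eigenvalue.**

Let `K` be a number field, `p` a prime number and `F` a finite extension of `ℚ_p` with the absolute
value which extends the `p`-adic one. Let `V` and `W` be continuous strongly irreducible
representations of the absolute Galois group of `K` in `GL_2(F)`. The set of the finite places `v` of
`K` such that for all Frobenius elements `g` at `v` each eigenvalue of `V(g)` and each eigenvalue of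
`W(g)` are multiplicatively independent has positive lower density if and only if over no finite
extension of `K` the representation `V` becomes isomorphic to `W` or to the dual of `W`. -/
theorem result {K : Type} [Field K] [NumberField K] (p : ℕ) [Fact p.Prime] {F : Type}
    [NormedField F] [NormedAlgebra ℚ_[p] F] [FiniteDimensional ℚ_[p] F]
    (V W : AbsGal K →* GL (Fin 2) F) (hV : Continuous V) (hW : Continuous W)
    (hirrV : StronglyIrreducible V) (hirrW : StronglyIrreducible W) :
    PositiveLowerDensity {v : HeightOneSpectrum (𝓞 K) | ∀ g, IsFrobenius v g →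
        IndependentEigenvalues (mat V g) (mat W g)} ↔
      ¬ (PotentiallyIsomorphic V W ∨ PotentiallyIsomorphic V (dual W)) := by
  constructor
  · -- the easy direction
    rintro ⟨δ, hδ, h⟩
    have hex : ∃ v : HeightOneSpectrum (𝓞 K), ∀ g, IsFrobenius v g →
        IndependentEigenvalues (mat V g) (mat W g) := by
      by_contra hcon
      push Not at hcon
      obtain ⟨x, h1, h2⟩ := (h.and (Nat.tendsto_primeCounting.eventually_gt_atTop 0)).exists
      have h3 : ({v ∈ {v : HeightOneSpectrum (𝓞 K) | ∀ g, IsFrobenius v g →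
          IndependentEigenvalues (mat V g) (mat W g)} | Ideal.absNorm v.asIdeal ≤ x}) = ∅ := by
        rw [Set.eq_empty_iff_forall_notMem]
        rintro v ⟨hv, -⟩
        obtain ⟨g, hg, hng⟩ := hcon v
        exact hng (hv g hg)
      rw [h3, Set.ncard_empty, Nat.cast_zero] at h1
      have h4 : (0 : ℝ) < Nat.primeCounting x := by exact_mod_cast h2
      have h5 := mul_pos hδ h4
      linarith
    obtain ⟨v, hv⟩ := hex
    obtain ⟨g, hg⟩ := exists_frobenius v
    rintro (hi | hi)
    · exact not_independent_of_isomorphic hi g (hv g hg)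
    · exact not_independent_of_dual hi g (hv g hg)
  · intro hni
    by_contra hcon
    apply hni
    obtain ⟨H, T, hHT⟩ := Pool.Agent.H86.FM.OneMn.main p ((Units.coeHom _).comp V)
      ((Units.coeHom _).comp W) (Units.continuous_val.comp hV) (Units.continuous_val.comp hW)
      (fun H hH => hirrV H hH) (fun H hH => hirrW H hH)
      {v : HeightOneSpectrum (𝓞 K) | ∃ g, IsFrobenius v g ∧
        ¬ IndependentEigenvalues (mat V g) (mat W g)} (by
      intro ε hε
      have h1 : ¬ ∀ᶠ x : ℕ in atTop, ε * Nat.primeCounting x ≤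
          (({v ∈ {v : HeightOneSpectrum (𝓞 K) | ∀ g, IsFrobenius v g →
            IndependentEigenvalues (mat V g) (mat W g)} |
            Ideal.absNorm v.asIdeal ≤ x}).ncard : ℝ) := fun h => hcon ⟨ε, hε, h⟩
      have h2 := (Filter.not_eventually.1 h1)
      refine (h2.and_eventually
        (Nat.tendsto_primeCounting.eventually_gt_atTop 0)).mono ?_
      rintro x ⟨h3, h4⟩
      have h5 : (0 : ℝ) < (Nat.primeCounting x : ℝ) := by exact_mod_cast h4
      unfold Pool.Agent.W401.Cheb.dens
      rw [div_le_iff₀ h5]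
      push Not at h3
      refine le_trans (le_of_eq ?_) h3.le
      have h6 : {v : HeightOneSpectrum (𝓞 K) | Ideal.absNorm v.asIdeal ≤ x ∧
          v ∉ {v : HeightOneSpectrum (𝓞 K) | ∃ g, IsFrobenius v g ∧
            ¬ IndependentEigenvalues (mat V g) (mat W g)}} =
          {v ∈ {v : HeightOneSpectrum (𝓞 K) | ∀ g, IsFrobenius v g →
            IndependentEigenvalues (mat V g) (mat W g)} | Ideal.absNorm v.asIdeal ≤ x} := by
        ext v
        constructor
        · rintro ⟨ha, hb⟩
          refine ⟨fun g hg => ?_, ha⟩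
          by_contra hc
          exact hb ⟨g, hg, hc⟩
        · rintro ⟨ha, hb⟩
          refine ⟨hb, ?_⟩
          rintro ⟨g, hg, hc⟩
          exact hc (ha g hg)
      rw [← h6]
      rfl) (by
      rintro v ⟨g, hg, hng⟩
      refine ⟨g, hg, ?_⟩
      unfold IndependentEigenvalues at hng
      push Not at hng
      obtain ⟨a₁, a₂, b₁, b₂, ha, hb, k, l, hkl, hne⟩ := hng
      obtain ⟨ha₁, ha₂⟩ := eigenvalues_ne (M := V g) ha
      obtain ⟨hb₁, hb₂⟩ := eigenvalues_ne (M := W g) hb
      obtain ⟨k', l', hk', h⟩ := int_form ha₁ hb₁ hkl (fun h => hne h.1 h.2)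
      refine ⟨k', l', hk', ?_⟩
      rcases h with h | h
      · left
        exact fun j => Rs_pow ha hb h j
      · right
        exact fun j => Rs_pow ha (eigenvalues_inv (mat_inv W g) hb) h j)
    rcases hHT with hHT | hHT
    · left
      refine ⟨H.toSubgroup, H.isOpen', T⁻¹, fun h hh => ?_⟩
      apply Units.ext
      have h1 : (T : Matrix (Fin 2) (Fin 2) F) * (V h : Matrix (Fin 2) (Fin 2) F) *
          ((T⁻¹ : (Matrix (Fin 2) (Fin 2) F)ˣ) : Matrix (Fin 2) (Fin 2) F) =
          (W h : Matrix (Fin 2) (Fin 2) F) := hHT h hh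
      rw [Units.val_mul, Units.val_mul, ← h1, inv_inv]
      calc (V h : Matrix (Fin 2) (Fin 2) F) =
            (((T⁻¹ : (Matrix (Fin 2) (Fin 2) F)ˣ) : Matrix (Fin 2) (Fin 2) F) *
              (T : Matrix (Fin 2) (Fin 2) F)) * (V h : Matrix (Fin 2) (Fin 2) F) *
            (((T⁻¹ : (Matrix (Fin 2) (Fin 2) F)ˣ) : Matrix (Fin 2) (Fin 2) F) *
              (T : Matrix (Fin 2) (Fin 2) F)) := by rw [T.inv_mul, one_mul, mul_one]
        _ = _ := by simp only [mul_assoc]
    · right
      refine ⟨H.toSubgroup, H.isOpen', T⁻¹, fun h hh => ?_⟩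
      apply Units.ext
      have h1 : (T : Matrix (Fin 2) (Fin 2) F) * (V h : Matrix (Fin 2) (Fin 2) F) *
          ((T⁻¹ : (Matrix (Fin 2) (Fin 2) F)ˣ) : Matrix (Fin 2) (Fin 2) F) =
          (dual W h : Matrix (Fin 2) (Fin 2) F) := hHT h hh
      rw [Units.val_mul, Units.val_mul, ← h1, inv_inv]
      calc (V h : Matrix (Fin 2) (Fin 2) F) =
            (((T⁻¹ : (Matrix (Fin 2) (Fin 2) F)ˣ) : Matrix (Fin 2) (Fin 2) F) *
              (T : Matrix (Fin 2) (Fin 2) F)) * (V h : Matrix (Fin 2) (Fin 2) F) *
            (((T⁻¹ : (Matrix (Fin 2) (Fin 2) F)ˣ) : Matrix (Fin 2) (Fin 2) F) *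
              (T : Matrix (Fin 2) (Fin 2) F)) := by rw [T.inv_mul, one_mul, mul_one]
        _ = _ := by simp only [mul_assoc]

end Pool.Agent.Results.MP_b583a4_nt.OneEigenvalue
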